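import Pool.Agent.H5.QD.Small

/-!
# Project QD: the three circles theorem for Hilbert space valued families
-/

set_option autoImplicit false

namespace Pool.Agent.H5.QD

open Complex Metric Set Filter Topology Pool.Agent.H58.BJ Complex.HadamardThreeLines
open scoped Real ComplexConjugate

/-- Hadamard's three circles theorem between the circles of radii `a < κ < 1` -/
theorem circ3 {φ : ℂ → ℂ} (hφ : DifferentiableOn ℂ φ (ball 0 1)) {a κ A B M : ℝ} (ha : 0 < a)
    (hκ0 : 0 < κ) (ha1 : a < 1) (hκ : κ < 1) (hM : ∀ l ∈ ball (0 : ℂ) 1, ‖φ l‖ ≤ M)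
    (hA : ∀ l : ℂ, ‖l‖ = a → ‖φ l‖ ≤ A) (hB : ∀ l : ℂ, ‖l‖ = κ → ‖φ l‖ ≤ B) {s : ℝ}
    (hs0 : 0 ≤ s) (hs1 : s ≤ 1) {l0 : ℂ} (hl0 : l0 ≠ 0)
    (hl : Real.log ‖l0‖ = (1 - s) * Real.log a + s * Real.log κ) :
    ‖φ l0‖ ≤ A ^ (1 - s) * B ^ s := by
  set u : ℂ := l0 / (‖l0‖ : ℂ) with hu
  have hn0 : 0 < ‖l0‖ := norm_pos_iff.2 hl0
  have hun : ‖u‖ = 1 := by
    rw [hu, norm_div, Complex.norm_real, norm_norm, div_self hn0.ne']
  set L : ℂ → ℂ := fun ζ => u * Complex.exp ((1 - ζ) * (Real.log a : ℂ) + ζ * (Real.log κ : ℂ))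
    with hL
  have hLn : ∀ ζ : ℂ, ‖L ζ‖ = Real.exp ((1 - ζ.re) * Real.log a + ζ.re * Real.log κ) := by
    intro ζ
    rw [hL]
    simp only
    rw [norm_mul, hun, one_mul, Complex.norm_exp]
    congr 1
    simp
  have hla : Real.log a < 0 := Real.log_neg ha ha1
  have hlκ : Real.log κ < 0 := Real.log_neg hκ0 hκ
  have hball : ∀ ζ : ℂ, 0 ≤ ζ.re → ζ.re ≤ 1 → L ζ ∈ ball (0 : ℂ) 1 := by
    intro ζ h1 h2
    rw [mem_ball_zero_iff, hLn, Real.exp_lt_one_iff]
    have h3 := mul_le_mul_of_nonneg_left (le_max_left (Real.log a) (Real.log κ))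
      (by linarith : 0 ≤ 1 - ζ.re)
    have h4 := mul_le_mul_of_nonneg_left (le_max_right (Real.log a) (Real.log κ)) h1
    have h5 : max (Real.log a) (Real.log κ) < 0 := max_lt hla hlκ
    have h6 : (1 - ζ.re) * max (Real.log a) (Real.log κ) + ζ.re * max (Real.log a) (Real.log κ) =
        max (Real.log a) (Real.log κ) := by ring
    linarith
  have hLd : Differentiable ℂ L := by
    rw [hL]
    fun_prop
  have hcl : ∀ ζ ∈ closure (verticalStrip 0 1), 0 ≤ ζ.re ∧ ζ.re ≤ 1 := by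
    intro ζ hζ
    have hsub : closure (verticalStrip 0 1) ⊆ re ⁻¹' Icc 0 1 := by
      apply closure_minimal
      · exact preimage_mono Ioo_subset_Icc_self
      · exact isClosed_Icc.preimage Complex.continuous_re
    exact hsub hζ
  have hd : DiffContOnCl ℂ (fun ζ => φ (L ζ)) (verticalStrip 0 1) := by
    apply DifferentiableOn.diffContOnCl
    intro ζ hζ
    have h1 := hcl ζ hζ
    have h2 : DifferentiableAt ℂ φ (L ζ) :=
      hφ.differentiableAt (isOpen_ball.mem_nhds (hball ζ h1.1 h1.2))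
    exact (h2.comp ζ (hLd ζ)).differentiableWithinAt
  have hBd : BddAbove ((norm ∘ (fun ζ => φ (L ζ))) '' verticalClosedStrip 0 1) := by
    refine ⟨M, ?_⟩
    rintro _ ⟨ζ, hζ, rfl⟩
    exact hM _ (hball ζ hζ.1 hζ.2)
  have h := norm_le_interp_of_mem_verticalClosedStrip₀₁' (fun ζ => φ (L ζ)) (z := (s : ℂ))
    (a := A) (b := B) (by
      show (s : ℂ).re ∈ Icc 0 1
      rw [Complex.ofReal_re]
      exact ⟨hs0, hs1⟩) hd hBd (by
      intro ζ hζ
      have hζ0 : ζ.re = 0 := hζ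
      apply hA
      rw [hLn, hζ0]
      simp [Real.exp_log ha]) (by
      intro ζ hζ
      have hζ0 : ζ.re = 1 := hζ
      apply hB
      rw [hLn, hζ0]
      simp [Real.exp_log hκ0])
  have hLs : L (s : ℂ) = l0 := by
    have e1 : (1 - (s : ℂ)) * (Real.log a : ℂ) + (s : ℂ) * (Real.log κ : ℂ) =
        ((Real.log ‖l0‖ : ℝ) : ℂ) := by
      rw [hl]; push_cast; ring
    rw [hL]
    simp only
    rw [e1, ← Complex.ofReal_exp, Real.exp_log hn0, hu, div_mul_cancel₀]
    exact_mod_cast hn0.ne'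
  rw [hLs, Complex.ofReal_re] at h
  exact h

/-- **Interpolation.** -/
theorem interp {H : ℂ → ℂ → ℂ} (hH : Fam H) {x M1 M2 : ℝ} (hx : 0 ≤ x) (hx1 : x < 1)
    (hM1 : ∀ l : ℂ, ‖l‖ ≤ 1 / 6 → S (bb (H l)) 0 x ≤ M1)
    (hM2 : ∀ l ∈ ball (0 : ℂ) 1, S (bb (H l)) 0 x ≤ M2) {l0 : ℂ} (hl0 : 1 / 6 ≤ ‖l0‖)
    (hl1 : ‖l0‖ < 1) {s κ : ℝ} (hκ0 : 0 < κ) (hκ : κ < 1) (hs0 : 0 ≤ s) (hs1 : s ≤ 1)
    (hl : Real.log ‖l0‖ = (1 - s) * Real.log (1 / 6) + s * Real.log κ) :
    S (bb (H l0)) 0 x ≤ M1 ^ (1 - s) * M2 ^ s := by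
  have hl0b : l0 ∈ ball (0 : ℂ) 1 := mem_ball_zero_iff.2 hl1
  have hl00 : l0 ≠ 0 := by
    rw [← norm_pos_iff]; linarith
  have hM10 : 0 ≤ M1 := (S_nonneg (bb_nonneg _) 0 hx).trans (hM1 0 (by simp))
  have hM20 : 0 ≤ M2 := (S_nonneg (bb_nonneg _) 0 hx).trans (hM2 0 (mem_ball_self one_pos))
  -- partial sums
  have hpart : ∀ l ∈ ball (0 : ℂ) 1, ∀ N : ℕ,
      ∑ n ∈ Finset.range N, bb (H l) n * x ^ n ≤ S (bb (H l)) 0 x := by
    intro l hl N
    have h := bb_summ (hH.1 l hl) hx hx1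
    have h2 := h.sum_le_tsum (Finset.range N) (fun n _ => mul_nonneg (bb_nonneg _ n)
      (by positivity))
    have e : S (bb (H l)) 0 x = ∑' n : ℕ, bb (H l) n * x ^ n := by
      unfold S
      apply tsum_congr
      intro n
      simp
    rw [e]
    exact h2
  have hfin : ∀ N : ℕ, ∑ n ∈ Finset.range N, bb (H l0) n * x ^ n ≤ M1 ^ (1 - s) * M2 ^ s := by
    intro N
    set T : ℝ := ∑ n ∈ Finset.range N, bb (H l0) n * x ^ n with hT
    have hT0 : 0 ≤ T := Finset.sum_nonneg fun n _ => mul_nonneg (bb_nonneg _ n) (by positivity)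
    set φ : ℂ → ℂ := fun l => ∑ n ∈ Finset.range N, co (H l) n * conj (co (H l0) n) * (x : ℂ) ^ n
      with hφ
    have hφd : DifferentiableOn ℂ φ (ball 0 1) := by
      rw [hφ]
      apply DifferentiableOn.fun_sum
      intro n _
      have h1 := (hH.iter n).2.1 0 (mem_ball_self one_pos)
      have h2 : DifferentiableOn ℂ (fun l => co (H l) n) (ball 0 1) := h1.div_const _
      exact (h2.mul_const _).mul_const _
    -- Cauchy-Schwarz
    have hCS : ∀ l ∈ ball (0 : ℂ) 1, ‖φ l‖ ≤ Real.sqrt (S (bb (H l)) 0 x) * Real.sqrt T := by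
      intro l hl
      have h1 : ‖φ l‖ ≤ ∑ n ∈ Finset.range N, (‖co (H l) n‖ * Real.sqrt (x ^ n)) *
          (‖co (H l0) n‖ * Real.sqrt (x ^ n)) := by
        refine (norm_sum_le _ _).trans (Finset.sum_le_sum fun n _ => le_of_eq ?_)
        have h3 : Real.sqrt (x ^ n) * Real.sqrt (x ^ n) = x ^ n :=
          Real.mul_self_sqrt (by positivity)
        rw [norm_mul, norm_mul, RCLike.norm_conj, norm_pow, Complex.norm_real,
          Real.norm_of_nonneg hx]
        calc ‖co (H l) n‖ * ‖co (H l0) n‖ * x ^ n =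
            ‖co (H l) n‖ * ‖co (H l0) n‖ * (Real.sqrt (x ^ n) * Real.sqrt (x ^ n)) := by rw [h3]
          _ = _ := by ring
      have h2 := Real.sum_mul_le_sqrt_mul_sqrt (Finset.range N)
        (fun n => ‖co (H l) n‖ * Real.sqrt (x ^ n)) (fun n => ‖co (H l0) n‖ * Real.sqrt (x ^ n))
      have e : ∀ l, ∑ n ∈ Finset.range N, (‖co (H l) n‖ * Real.sqrt (x ^ n)) ^ 2 =
          ∑ n ∈ Finset.range N, bb (H l) n * x ^ n := by
        intro l
        apply Finset.sum_congr rfl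
        intro n _
        rw [mul_pow, Real.sq_sqrt (by positivity)]
        rfl
      rw [e, e] at h2
      refine h1.trans (h2.trans ?_)
      exact mul_le_mul_of_nonneg_right (Real.sqrt_le_sqrt (hpart l hl N)) (Real.sqrt_nonneg _)
    have hφ0 : φ l0 = (T : ℂ) := by
      rw [hφ, hT]
      simp only
      push_cast
      apply Finset.sum_congr rfl
      intro n _
      rw [Complex.mul_conj, Complex.normSq_eq_norm_sq]
      unfold bb
      push_cast
      ring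
    have h3 := circ3 hφd (a := 1 / 6) (κ := κ) (A := Real.sqrt M1 * Real.sqrt T)
      (B := Real.sqrt M2 * Real.sqrt T) (M := Real.sqrt M2 * Real.sqrt T) (by norm_num) hκ0
      (by norm_num) hκ
      (fun l hl => (hCS l hl).trans (mul_le_mul_of_nonneg_right
        (Real.sqrt_le_sqrt (hM2 l hl)) (Real.sqrt_nonneg _)))
      (fun l hl => (hCS l (by rw [mem_ball_zero_iff, hl]; norm_num)).trans
        (mul_le_mul_of_nonneg_right (Real.sqrt_le_sqrt (hM1 l hl.le)) (Real.sqrt_nonneg _)))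
      (fun l hl => (hCS l (by rw [mem_ball_zero_iff, hl]; exact hκ)).trans
        (mul_le_mul_of_nonneg_right (Real.sqrt_le_sqrt (hM2 l (by
          rw [mem_ball_zero_iff, hl]; exact hκ))) (Real.sqrt_nonneg _)))
      hs0 hs1 hl00 hl
    rw [hφ0, Complex.norm_real, Real.norm_of_nonneg hT0] at h3
    rcases hT0.eq_or_lt with hT1 | hT1
    · rw [← hT1]
      exact mul_nonneg (Real.rpow_nonneg hM10 _) (Real.rpow_nonneg hM20 _)
    · have hsT : 0 < Real.sqrt T := Real.sqrt_pos.2 hT1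
      have h4 : (Real.sqrt M1 * Real.sqrt T) ^ (1 - s) * (Real.sqrt M2 * Real.sqrt T) ^ s =
          Real.sqrt (M1 ^ (1 - s) * M2 ^ s) * Real.sqrt T := by
        rw [Real.mul_rpow (Real.sqrt_nonneg _) (Real.sqrt_nonneg _),
          Real.mul_rpow (Real.sqrt_nonneg _) (Real.sqrt_nonneg _)]
        have h5 : Real.sqrt T ^ (1 - s) * Real.sqrt T ^ s = Real.sqrt T := by
          rw [← Real.rpow_add hsT, sub_add_cancel, Real.rpow_one]
        have h6 : ∀ m p : ℝ, 0 ≤ m → Real.sqrt m ^ p = Real.sqrt (m ^ p) := by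
          intro m p hm
          rw [Real.sqrt_eq_rpow, Real.sqrt_eq_rpow, ← Real.rpow_mul hm, ← Real.rpow_mul hm,
            mul_comm]
        rw [Real.sqrt_mul (Real.rpow_nonneg hM10 _), ← h6 M1 _ hM10, ← h6 M2 _ hM20]
        calc _ = Real.sqrt M1 ^ (1 - s) * Real.sqrt M2 ^ s *
            (Real.sqrt T ^ (1 - s) * Real.sqrt T ^ s) := by ring
          _ = _ := by rw [h5]
      rw [h4] at h3
      have h7 : Real.sqrt T * Real.sqrt T ≤ Real.sqrt (M1 ^ (1 - s) * M2 ^ s) * Real.sqrt T := by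
        rwa [Real.mul_self_sqrt hT0]
      have h8 := le_of_mul_le_mul_right h7 hsT
      exact (Real.sqrt_le_sqrt_iff (mul_nonneg (Real.rpow_nonneg hM10 _)
        (Real.rpow_nonneg hM20 _))).1 h8
  have e : S (bb (H l0)) 0 x = ∑' n : ℕ, bb (H l0) n * x ^ n := by
    unfold S
    apply tsum_congr
    intro n
    simp
  rw [e]
  exact (bb_summ (hH.1 l0 hl0b) hx hx1).tsum_le_of_sum_range_le hfin

end Pool.Agent.H5.QD
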