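import Mathlib

/-!
# Project QD: separately holomorphic, locally bounded functions on the bidisc
-/

set_option autoImplicit false

namespace Pool.Agent.H5.QD

open Complex Metric Set Filter Topology

/-- separately holomorphic and locally bounded on the bidisc -/
def Fam (H : ℂ → ℂ → ℂ) : Prop :=
  (∀ l ∈ ball (0 : ℂ) 1, DifferentiableOn ℂ (H l) (ball 0 1)) ∧
  (∀ z ∈ ball (0 : ℂ) 1, DifferentiableOn ℂ (fun l => H l z) (ball 0 1)) ∧
  ∀ ρ : ℝ, ρ < 1 → ∃ C : ℝ, ∀ l : ℂ, ‖l‖ ≤ ρ → ∀ z : ℂ, ‖z‖ ≤ ρ → ‖H l z‖ ≤ C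

/-- Cauchy estimate on smaller discs -/
theorem cauchy {f : ℂ → ℂ} (hf : DifferentiableOn ℂ f (ball 0 1)) {s t C : ℝ} (hst : s < t)
    (ht : t < 1) (hC : ∀ z : ℂ, ‖z‖ ≤ t → ‖f z‖ ≤ C) {z : ℂ} (hz : ‖z‖ ≤ s) :
    ‖deriv f z‖ ≤ C / (t - s) := by
  have hsub : closedBall z (t - s) ⊆ closedBall (0 : ℂ) t := by
    intro w hw
    rw [mem_closedBall, dist_eq_norm] at hw
    rw [mem_closedBall_zero_iff]
    calc ‖w‖ = ‖(w - z) + z‖ := by rw [sub_add_cancel]
      _ ≤ ‖w - z‖ + ‖z‖ := norm_add_le _ _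
      _ ≤ t := by linarith
  have hsub2 : closedBall (0 : ℂ) t ⊆ ball (0 : ℂ) 1 := closedBall_subset_ball ht
  have hpos : 0 < t - s := by linarith
  refine Complex.norm_deriv_le_of_forall_mem_sphere_norm_le hpos ?_ ?_
  · exact DifferentiableOn.diffContOnCl_ball (hf.mono hsub2) hsub
  · intro w hw
    exact hC w (mem_closedBall_zero_iff.1 (hsub (sphere_subset_closedBall hw)))

/-- difference quotients converge with a rate -/
theorem quot {f : ℂ → ℂ} (hf : DifferentiableOn ℂ f (ball 0 1)) {s t u C : ℝ} (hst : s < t)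
    (htu : t < u) (hu : u < 1) (hC : ∀ z : ℂ, ‖z‖ ≤ u → ‖f z‖ ≤ C) {z h : ℂ} (hz : ‖z‖ ≤ s)
    (hh : ‖h‖ ≤ (t - s) / 2) (hh0 : h ≠ 0) :
    ‖(f (z + h) - f z) / h - deriv f z‖ ≤ C / (u - t) / ((t - s) / 2) * ‖h‖ := by
  have hts : 0 < (t - s) / 2 := by linarith
  have ht1 : t < 1 := htu.trans hu
  have hd : DifferentiableOn ℂ (deriv f) (ball 0 1) := hf.deriv isOpen_ball
  have hd1 : ∀ w : ℂ, ‖w‖ ≤ t → ‖deriv f w‖ ≤ C / (u - t) := fun w hw => cauchy hf htu hu hC hw
  have hd2 : ∀ w : ℂ, ‖w‖ ≤ (s + t) / 2 → ‖deriv (deriv f) w‖ ≤ C / (u - t) / ((t - s) / 2) := by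
    intro w hw
    have h1 : (s + t) / 2 < t := by linarith
    have h2 := cauchy hd h1 ht1 hd1 hw
    have h3 : t - (s + t) / 2 = (t - s) / 2 := by ring
    rwa [h3] at h2
  set M : ℝ := C / (u - t) / ((t - s) / 2) with hM
  set A : Set ℂ := closedBall (0 : ℂ) ((s + t) / 2) ∩ closedBall z ‖h‖ with hA
  have hAc : Convex ℝ A := (convex_closedBall _ _).inter (convex_closedBall _ _)
  have hAsub : ∀ w ∈ A, w ∈ ball (0 : ℂ) 1 := by
    intro w hw
    have := mem_closedBall_zero_iff.1 hw.1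
    rw [mem_ball_zero_iff]
    linarith
  have hzA : z ∈ A := by
    refine ⟨mem_closedBall_zero_iff.2 (by linarith), mem_closedBall_self (norm_nonneg _)⟩
  have hzhA : z + h ∈ A := by
    refine ⟨mem_closedBall_zero_iff.2 ?_, ?_⟩
    · calc ‖z + h‖ ≤ ‖z‖ + ‖h‖ := norm_add_le _ _
        _ ≤ (s + t) / 2 := by linarith
    · rw [mem_closedBall, dist_eq_norm, add_sub_cancel_left]
  have hM0 : 0 ≤ M := (norm_nonneg _).trans (hd2 z (by linarith))
  -- derivative close to the derivative at `z`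
  have h1 : ∀ w ∈ A, ‖deriv f w - deriv f z‖ ≤ M * ‖h‖ := by
    intro w hw
    have h2 := Convex.norm_image_sub_le_of_norm_deriv_le (𝕜 := ℂ) (f := deriv f) (C := M)
      (s := closedBall (0 : ℂ) ((s + t) / 2))
      (fun v hv => hd.differentiableAt (isOpen_ball.mem_nhds (by
        rw [mem_ball_zero_iff]; have := mem_closedBall_zero_iff.1 hv; linarith)))
      (fun v hv => hd2 v (mem_closedBall_zero_iff.1 hv)) (convex_closedBall _ _) hzA.1 hw.1
    refine h2.trans (mul_le_mul_of_nonneg_left ?_ hM0)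
    have := hw.2
    rwa [mem_closedBall, dist_eq_norm] at this
  have h3 := Convex.norm_image_sub_le_of_norm_deriv_le (𝕜 := ℂ)
    (f := fun w => f w - w * deriv f z) (C := M * ‖h‖) (s := A)
    (fun w hw => by
      have := hf.differentiableAt (isOpen_ball.mem_nhds (hAsub w hw))
      fun_prop)
    (fun w hw => by
      have h4 : HasDerivAt f (deriv f w) w :=
        (hf.differentiableAt (isOpen_ball.mem_nhds (hAsub w hw))).hasDerivAt
      have h5 := h4.sub ((hasDerivAt_id w).mul_const (deriv f z))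
      have h6 : deriv (fun w => f w - w * deriv f z) w = deriv f w - 1 * deriv f z := h5.deriv
      rw [h6, one_mul]
      exact h1 w hw) hAc hzA hzhA
  have h7 : (f (z + h) - f z) / h - deriv f z =
      ((f (z + h) - (z + h) * deriv f z) - (f z - z * deriv f z)) / h := by
    field_simp
    ring
  rw [h7, norm_div, div_le_iff₀ (norm_pos_iff.2 hh0)]
  rw [add_sub_cancel_left] at h3
  exact h3

theorem Fam.deriv {H : ℂ → ℂ → ℂ} (hH : Fam H) : Fam (fun l => _root_.deriv (H l)) := by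
  obtain ⟨h1, h2, h3⟩ := hH
  refine ⟨fun l hl => (h1 l hl).deriv isOpen_ball, ?_, ?_⟩
  · intro z hz
    rw [mem_ball_zero_iff] at hz
    -- radii
    set s : ℝ := ‖z‖ with hs
    set t : ℝ := (2 * s + 1) / 3 with ht
    set u : ℝ := (s + 2) / 3 with hu
    have hst : s < t := by rw [ht]; linarith
    have htu : t < u := by rw [ht, hu]; linarith
    have hu1 : u < 1 := by rw [hu]; linarith
    set δ : ℝ := (t - s) / 2 with hδ
    have hδ0 : 0 < δ := by rw [hδ]; linarith
    set D : ℕ → ℂ → ℂ := fun n l =>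
      (H l (z + ((δ / ((n : ℝ) + 1) : ℝ) : ℂ)) - H l z) / ((δ / ((n : ℝ) + 1) : ℝ) : ℂ) with hD
    have hhn : ∀ n : ℕ, ‖((δ / ((n : ℝ) + 1) : ℝ) : ℂ)‖ = δ / ((n : ℝ) + 1) := by
      intro n
      rw [Complex.norm_real, Real.norm_of_nonneg (by positivity)]
    have hhle : ∀ n : ℕ, δ / ((n : ℝ) + 1) ≤ δ := by
      intro n
      apply div_le_self hδ0.le
      have : (0 : ℝ) ≤ n := Nat.cast_nonneg n
      linarith
    have hdiff : ∀ n, DifferentiableOn ℂ (D n) (ball 0 1) := by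
      intro n
      have hzn : z + ((δ / ((n : ℝ) + 1) : ℝ) : ℂ) ∈ ball (0 : ℂ) 1 := by
        rw [mem_ball_zero_iff]
        calc ‖z + ((δ / ((n : ℝ) + 1) : ℝ) : ℂ)‖ ≤ s + δ / ((n : ℝ) + 1) := by
              refine (norm_add_le _ _).trans ?_
              rw [hhn]
          _ ≤ s + δ := by linarith [hhle n]
          _ < 1 := by rw [hδ]; linarith
      exact ((h2 _ hzn).sub (h2 z (mem_ball_zero_iff.2 hz))).div_const _
    refine TendstoLocallyUniformlyOn.differentiableOn (φ := atTop) (F := D) ?_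
      (Eventually.of_forall hdiff) isOpen_ball
    rw [Metric.tendstoLocallyUniformlyOn_iff]
    intro ε hε l0 hl0
    rw [mem_ball_zero_iff] at hl0
    set ρ : ℝ := max ((‖l0‖ + 1) / 2) u with hρ
    have hρ1 : ρ < 1 := by
      rw [hρ]
      exact max_lt (by linarith) hu1
    obtain ⟨C, hC⟩ := h3 ρ hρ1
    have hC0 : 0 ≤ C := (norm_nonneg _).trans (hC 0 (by
      rw [norm_zero]; exact le_trans (by linarith [norm_nonneg z]) (le_max_right _ _)) 0 (by
      rw [norm_zero]; exact le_trans (by linarith [norm_nonneg z]) (le_max_right _ _)))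
    set K : ℝ := C / (u - t) / ((t - s) / 2) with hK
    have hK0 : 0 ≤ K := by
      rw [hK]
      apply div_nonneg (div_nonneg hC0 (by linarith)) (by linarith)
    refine ⟨ball (0 : ℂ) ((‖l0‖ + 1) / 2), ?_, ?_⟩
    · apply mem_nhdsWithin_of_mem_nhds
      apply isOpen_ball.mem_nhds
      rw [mem_ball_zero_iff]
      linarith
    · have hlim : Tendsto (fun n : ℕ => K * (δ / ((n : ℝ) + 1))) atTop (𝓝 (K * 0)) := by
        apply Tendsto.const_mul
        exact tendsto_const_div_atTop_nhds_zero_nat δ |>.comp (tendsto_add_atTop_nat 1) |>.congr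
          (fun n => by simp)
      rw [mul_zero] at hlim
      filter_upwards [hlim.eventually (gt_mem_nhds hε)] with n hn l hl
      rw [mem_ball_zero_iff] at hl
      have hlρ : ‖l‖ ≤ ρ := hl.le.trans (le_max_left _ _)
      have hl1 : l ∈ ball (0 : ℂ) 1 := by rw [mem_ball_zero_iff]; linarith
      have hb : ∀ w : ℂ, ‖w‖ ≤ u → ‖H l w‖ ≤ C := fun w hw =>
        hC l hlρ w (hw.trans (le_max_right _ _))
      have hne : ((δ / ((n : ℝ) + 1) : ℝ) : ℂ) ≠ 0 := by
        rw [← norm_pos_iff, hhn]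
        positivity
      have h4 := quot (h1 l hl1) hst htu hu1 hb (z := z) (h := ((δ / ((n : ℝ) + 1) : ℝ) : ℂ))
        le_rfl (by rw [hhn]; exact hhle n) hne
      rw [dist_comm, dist_eq_norm]
      rw [hhn] at h4
      exact h4.trans_lt hn
  · intro ρ hρ
    obtain ⟨C, hC⟩ := h3 ((ρ + 1) / 2) (by linarith)
    refine ⟨C / ((ρ + 1) / 2 - ρ), ?_⟩
    intro l hl z hz
    have hl1 : l ∈ ball (0 : ℂ) 1 := by rw [mem_ball_zero_iff]; linarith
    exact cauchy (h1 l hl1) (by linarith) (by linarith)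
      (fun w hw => hC l (hl.trans (by linarith)) w hw) hz

theorem Fam.iter {H : ℂ → ℂ → ℂ} (hH : Fam H) (n : ℕ) : Fam (fun l => iteratedDeriv n (H l)) := by
  induction n with
  | zero => simpa [iteratedDeriv_zero] using hH
  | succ n ih =>
    have := ih.deriv
    simpa [iteratedDeriv_succ] using this

end Pool.Agent.H5.QD
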