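import Pool.Agent.H5.QD.Circ
import Pool.Agent.H5.HT.D7.Fin

/-!
# Project QD: assembly
-/

set_option autoImplicit false

namespace Pool.Agent.H5.QD

open Complex Metric Set Filter Topology MeasureTheory Pool.Agent.H58.BJ
open scoped Real ComplexConjugate

theorem log6 : (221 / 1000 : ℝ) * Real.log 6 ≤ 396 / 1000 := by
  have h2 := Real.log_two_lt_d9
  have h3 : Real.log (531441 / 524288) ≤ 531441 / 524288 - 1 :=
    Real.log_le_sub_one_of_pos (by norm_num)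
  have h4 : Real.log (531441 / 524288) = 12 * Real.log 3 - 19 * Real.log 2 := by
    have e1 : (531441 : ℝ) = 3 ^ 12 := by norm_num
    have e2 : (524288 : ℝ) = 2 ^ 19 := by norm_num
    rw [e1, e2, Real.log_div (by norm_num) (by norm_num), Real.log_pow, Real.log_pow]
    norm_num
  have h5 : Real.log 6 = Real.log 2 + Real.log 3 := by
    rw [← Real.log_mul (by norm_num) (by norm_num)]
    norm_num
  rw [h5]
  rw [h4] at h3
  norm_num at h3
  linarith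

theorem log93 : (724 / 10000 : ℝ) ≤ Real.log (1 / (93 / 100)) := by
  rw [Real.le_log_iff_exp_le (by norm_num)]
  have h1 := Real.add_one_le_exp (-(724 / 10000 / 32) : ℝ)
  have h2 : Real.exp (724 / 10000) = (Real.exp (-(724 / 10000 / 32) : ℝ) ^ 32)⁻¹ := by
    rw [← Real.exp_nat_mul, ← Real.exp_neg]
    congr 1
    norm_num
  have h3 : (-(724 / 10000 / 32) + 1 : ℝ) ^ 32 ≤ Real.exp (-(724 / 10000 / 32) : ℝ) ^ 32 :=
    pow_le_pow_left₀ (by norm_num) h1 32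
  have h4 : (93 / 100 : ℝ) ≤ (-(724 / 10000 / 32) + 1 : ℝ) ^ 32 := by norm_num
  rw [h2, one_div]
  exact inv_anti₀ (by norm_num) (h4.trans h3)

/-- the two bounds of the means of a family -/
theorem two : ∃ C : ℝ, 1 ≤ C ∧ ∀ F : ℂ → ℂ → ℂ, UFam F → (∀ z ∈ ball (0 : ℂ) 1, F 0 z = z) →
    ∀ r : ℝ, 0 < r → r < 1 →
      (∀ l : ℂ, ‖l‖ ≤ 1 / 6 → S (bb (Q F l)) 0 (r ^ 2) ≤ C * (1 - r) ^ (-(6 / 25 : ℝ))) ∧
      (∀ l ∈ ball (0 : ℂ) 1, S (bb (Q F l)) 0 (r ^ 2) ≤ C * (1 - r) ^ (-(129 / 125 : ℝ))) := by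
  obtain ⟨C1, hC10, hC1⟩ := small
  obtain ⟨μ, κ, hκ, hcert⟩ := Pool.Agent.H5.HT.D7.cert
  have hβ : (((129 : ℕ) : ℝ) / ((125 : ℕ) : ℝ)) = 129 / 125 := by norm_num
  rw [hβ] at hcert
  have hcert' : Pool.Agent.H58.BJ.CertOK (129 / 125) μ κ := hcert
  obtain ⟨C2, hC20, hC2⟩ := Pool.Agent.H58.BJ.all_bound (by norm_num) hκ hcert'
  refine ⟨1 + C1 + C2 / (2 * π), by have : 0 ≤ C2 / (2 * π) := by positivity
                                    linarith, ?_⟩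
  intro F hF h0 r hr hr1
  have h1r : 0 < 1 - r := by linarith
  have hp1 : 0 ≤ (1 - r) ^ (-(6 / 25 : ℝ)) := Real.rpow_nonneg h1r.le _
  have hp2 : 0 ≤ (1 - r) ^ (-(129 / 125 : ℝ)) := Real.rpow_nonneg h1r.le _
  have hC3 : 0 ≤ C2 / (2 * π) := by positivity
  constructor
  · intro l hl
    have h1 := hC1 F hF h0 l hl (r ^ 2) (by positivity) (by nlinarith)
    have h2 : (1 - r ^ 2) ^ (-(6 / 25 : ℝ)) ≤ (1 - r) ^ (-(6 / 25 : ℝ)) :=
      Real.rpow_le_rpow_of_nonpos h1r (by nlinarith) (by norm_num)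
    calc _ ≤ _ := h1
      _ ≤ C1 * (1 - r) ^ (-(6 / 25 : ℝ)) := mul_le_mul_of_nonneg_left h2 hC10
      _ ≤ _ := mul_le_mul_of_nonneg_right (by linarith) hp1
  · intro l hl
    have h1 := hC2 (F l) (hF.1 l hl) r hr hr1
    have h2 := S0_eq (hF.famQ.1 l hl) hr.le hr1
    have hmem : ∀ θ : ℝ, circleMap 0 r θ ∈ ball (0 : ℂ) 1 := by
      intro θ
      rw [mem_ball_zero_iff, norm_circleMap_zero, abs_of_pos hr]
      exact hr1
    have h3 : (∫ θ in (0 : ℝ)..(2 * π), ‖Q F l (circleMap 0 r θ)‖ ^ 2) =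
        ‖deriv (F l) 0‖ ^ 2 * ∫ θ in (0 : ℝ)..(2 * π), qf (F l) (circleMap 0 r θ) := by
      rw [← intervalIntegral.integral_const_mul]
      congr 1
      funext θ
      unfold QD.Q qf
      rw [norm_div, div_pow, div_eq_mul_inv]
    have h4 : ‖deriv (F l) 0‖ ≠ 0 := by
      rw [norm_ne_zero_iff]
      exact hF.ne hl (mem_ball_self one_pos)
    have h5 : 2 * π * S (bb (Q F l)) 0 (r ^ 2) ≤
        2 * π * (C2 / (2 * π) * (1 - r) ^ (-(129 / 125 : ℝ))) := by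
      rw [h2, h3]
      calc _ ≤ ‖deriv (F l) 0‖ ^ 2 * (C2 * (‖deriv (F l) 0‖ ^ 2)⁻¹ *
            (1 - r) ^ (-(129 / 125 : ℝ))) := mul_le_mul_of_nonneg_left h1 (by positivity)
        _ = _ := by field_simp
    have h6 := le_of_mul_le_mul_left h5 (by positivity)
    exact h6.trans (mul_le_mul_of_nonneg_right (by linarith) hp2)

/-- the mean bound at the parameter `l` -/
theorem mean_bd : ∃ C : ℝ, 1 ≤ C ∧ ∀ F : ℂ → ℂ → ℂ, UFam F →
    (∀ z ∈ ball (0 : ℂ) 1, F 0 z = z) → ∀ r : ℝ, 0 < r → r < 1 →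
      (∀ l : ℂ, ‖l‖ ≤ 1 / 6 → S (bb (Q F l)) 0 (r ^ 2) ≤ C * (1 - r) ^ (-(6 / 25 : ℝ))) ∧
      (∀ l : ℂ, 1 / 6 ≤ ‖l‖ → ‖l‖ < 1 → S (bb (Q F l)) 0 (r ^ 2) ≤
        C * (1 - r) ^ (-(129 / 125 : ℝ) + 99 / 125 * (Real.log (1 / ‖l‖) / Real.log 6))) := by
  obtain ⟨C, hC1, hC⟩ := two
  refine ⟨C, hC1, ?_⟩
  intro F hF h0 r hr hr1
  obtain ⟨hA, hB⟩ := hC F hF h0 r hr hr1
  refine ⟨hA, ?_⟩
  intro l hl hl1
  have h1r : 0 < 1 - r := by linarith
  have hC0 : 0 < C := by linarith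
  have hk0 : 0 < ‖l‖ := by linarith
  have h6 : 0 < Real.log 6 := Real.log_pos (by norm_num)
  have hlk : Real.log (1 / ‖l‖) = -Real.log ‖l‖ := by rw [one_div, Real.log_inv]
  have hlk0 : 0 < Real.log (1 / ‖l‖) := by
    rw [hlk]
    linarith [Real.log_neg hk0 hl1]
  set s0 : ℝ := 1 - Real.log (1 / ‖l‖) / Real.log 6 with hs0
  have hs01 : s0 < 1 := by
    rw [hs0]
    have : 0 < Real.log (1 / ‖l‖) / Real.log 6 := by positivity
    linarith
  have hs00 : 0 ≤ s0 := by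
    rw [hs0]
    have h1 : Real.log (1 / ‖l‖) ≤ Real.log 6 := by
      apply Real.log_le_log (by positivity)
      rw [one_div, inv_le_comm₀ hk0 (by norm_num)]
      rw [one_div] at hl
      exact hl
    have : Real.log (1 / ‖l‖) / Real.log 6 ≤ 1 := by
      rw [div_le_one h6]
      exact h1
    linarith
  have key : ∀ s : ℝ, s0 < s → s < 1 → S (bb (Q F l)) 0 (r ^ 2) ≤
      C * (1 - r) ^ (-(129 / 125 : ℝ) + 99 / 125 * (1 - s)) := by
    intro s hs hs1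
    have hs' : 0 < s := by linarith
    set κ : ℝ := Real.exp ((Real.log ‖l‖ + (1 - s) * Real.log 6) / s) with hκ
    have hκ0 : 0 < κ := Real.exp_pos _
    have hκ1 : κ < 1 := by
      rw [hκ, Real.exp_lt_one_iff, div_lt_iff₀ hs', zero_mul]
      have h1 : (1 - s) * Real.log 6 < (1 - s0) * Real.log 6 :=
        mul_lt_mul_of_pos_right (by linarith) h6
      have h2 : (1 - s0) * Real.log 6 = Real.log (1 / ‖l‖) := by
        rw [hs0]
        field_simp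
        ring
      linarith
    have h1 := interp hF.famQ (x := r ^ 2) (M1 := C * (1 - r) ^ (-(6 / 25 : ℝ)))
      (M2 := C * (1 - r) ^ (-(129 / 125 : ℝ))) (by positivity) (by nlinarith) hA hB hl hl1
      (s := s) hκ0 hκ1 hs'.le hs1.le (by
        rw [hκ, Real.log_exp, one_div, Real.log_inv]
        field_simp
        ring)
    refine h1.trans (le_of_eq ?_)
    rw [Real.mul_rpow hC0.le (Real.rpow_nonneg h1r.le _),
      Real.mul_rpow hC0.le (Real.rpow_nonneg h1r.le _), ← Real.rpow_mul h1r.le,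
      ← Real.rpow_mul h1r.le]
    have e1 : C ^ (1 - s) * C ^ s = C := by
      rw [← Real.rpow_add hC0, sub_add_cancel, Real.rpow_one]
    calc C ^ (1 - s) * (1 - r) ^ (-(6 / 25 : ℝ) * (1 - s)) *
          (C ^ s * (1 - r) ^ (-(129 / 125 : ℝ) * s)) =
        (C ^ (1 - s) * C ^ s) * ((1 - r) ^ (-(6 / 25 : ℝ) * (1 - s)) *
          (1 - r) ^ (-(129 / 125 : ℝ) * s)) := by ring
      _ = C * (1 - r) ^ (-(6 / 25 : ℝ) * (1 - s) + -(129 / 125 : ℝ) * s) := by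
        rw [e1, ← Real.rpow_add h1r]
      _ = _ := by
        congr 2
        ring
  have hlim : Tendsto (fun s : ℝ => C * (1 - r) ^ (-(129 / 125 : ℝ) + 99 / 125 * (1 - s)))
      (𝓝[>] s0) (𝓝 (C * (1 - r) ^ (-(129 / 125 : ℝ) + 99 / 125 * (1 - s0)))) := by
    apply Tendsto.mono_left _ nhdsWithin_le_nhds
    have hc : Continuous (fun s : ℝ => C * (1 - r) ^ (-(129 / 125 : ℝ) + 99 / 125 * (1 - s))) := by
      apply Continuous.mul continuous_const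
      apply Continuous.rpow continuous_const (by fun_prop)
      intro s
      exact Or.inl h1r.ne'
    exact hc.tendsto s0
  have hev : ∀ᶠ s in 𝓝[>] s0, S (bb (Q F l)) 0 (r ^ 2) ≤
      C * (1 - r) ^ (-(129 / 125 : ℝ) + 99 / 125 * (1 - s)) := by
    filter_upwards [Ioo_mem_nhdsGT hs01] with s hs
    exact key s hs.1 hs.2
  have hfin := ge_of_tendsto hlim hev
  have e2 : 1 - s0 = Real.log (1 / ‖l‖) / Real.log 6 := by rw [hs0]; ring
  rw [e2] at hfin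
  exact hfin

/-- the integral mean in terms of the coefficients -/
theorem mean_eq {F : ℂ → ℂ → ℂ} (hF : UFam F) {l : ℂ} (hl : l ∈ ball (0 : ℂ) 1) {r : ℝ}
    (hr : 0 < r) (hr1 : r < 1) :
    ((1 / (2 * π)) * ∫ θ in (0 : ℝ)..(2 * π),
        (‖deriv (F l) ((r : ℂ) * Complex.exp ((θ : ℂ) * Complex.I))‖ ^ 2)⁻¹) ^ ((1 : ℝ) / 2) =
      ‖deriv (F l) 0‖⁻¹ * Real.sqrt (S (bb (Q F l)) 0 (r ^ 2)) := by
  have h2 := S0_eq (hF.famQ.1 l hl) hr.le hr1
  have h4 : ‖deriv (F l) 0‖ ≠ 0 := by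
    rw [norm_ne_zero_iff]
    exact hF.ne hl (mem_ball_self one_pos)
  have h3 : (∫ θ in (0 : ℝ)..(2 * π), ‖Q F l (circleMap 0 r θ)‖ ^ 2) =
      ‖deriv (F l) 0‖ ^ 2 * ∫ θ in (0 : ℝ)..(2 * π),
        (‖deriv (F l) ((r : ℂ) * Complex.exp ((θ : ℂ) * Complex.I))‖ ^ 2)⁻¹ := by
    rw [← intervalIntegral.integral_const_mul]
    congr 1
    funext θ
    unfold QD.Q
    rw [norm_div, div_pow, div_eq_mul_inv]
    simp [circleMap]
  rw [h3] at h2
  have h5 : (1 / (2 * π)) * (∫ θ in (0 : ℝ)..(2 * π),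
      (‖deriv (F l) ((r : ℂ) * Complex.exp ((θ : ℂ) * Complex.I))‖ ^ 2)⁻¹) =
      (‖deriv (F l) 0‖⁻¹) ^ 2 * S (bb (Q F l)) 0 (r ^ 2) := by
    have hp : (2 * π) ≠ 0 := by positivity
    set J : ℝ := ∫ θ in (0 : ℝ)..(2 * π),
      (‖deriv (F l) ((r : ℂ) * Complex.exp ((θ : ℂ) * Complex.I))‖ ^ 2)⁻¹ with hJ
    have h6 : S (bb (Q F l)) 0 (r ^ 2) = ‖deriv (F l) 0‖ ^ 2 * J / (2 * π) := by
      rw [← h2]
      field_simp
    rw [h6]
    field_simp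
  rw [h5, ← Real.sqrt_eq_rpow, Real.sqrt_mul (by positivity), Real.sqrt_sq (by positivity)]

theorem main : ∃ C : ℝ, ∀ F : ℂ → ℂ → ℂ,
    (∀ l ∈ ball (0 : ℂ) 1, DifferentiableOn ℂ (F l) (ball 0 1) ∧ InjOn (F l) (ball 0 1)) →
    (∀ z ∈ ball (0 : ℂ) 1, DifferentiableOn ℂ (fun l => F l z) (ball 0 1)) →
    (∀ z ∈ ball (0 : ℂ) 1, F 0 z = z) →
    ∀ l : ℂ, ∀ r : ℝ, 0 < r → r < 1 →
      (‖l‖ ≤ 93 / 100 →
        ((1 / (2 * π)) * ∫ θ in (0 : ℝ)..(2 * π),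
          (‖deriv (F l) ((r : ℂ) * Complex.exp ((θ : ℂ) * Complex.I))‖ ^ 2)⁻¹) ^ ((1 : ℝ) / 2) ≤
        C * ‖deriv (F l) 0‖⁻¹ * (1 - r) ^ (-((1 : ℝ) / 2))) ∧
      (1 / 6 ≤ ‖l‖ → ‖l‖ < 1 →
        ((1 / (2 * π)) * ∫ θ in (0 : ℝ)..(2 * π),
          (‖deriv (F l) ((r : ℂ) * Complex.exp ((θ : ℂ) * Complex.I))‖ ^ 2)⁻¹) ^ ((1 : ℝ) / 2) ≤
        C * ‖deriv (F l) 0‖⁻¹ *
          (1 - r) ^ (-((516 : ℝ) / 1000 - 221 / 1000 * Real.log (1 / ‖l‖)))) := by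
  obtain ⟨C, hC1, hC⟩ := mean_bd
  refine ⟨Real.sqrt C, ?_⟩
  intro F hF1 hF2 h0 l r hr hr1
  have hF : UFam F := ⟨hF1, hF2⟩
  obtain ⟨hA, hB⟩ := hC F hF h0 r hr hr1
  have h1r : 0 < 1 - r := by linarith
  have h1r1 : 1 - r ≤ 1 := by linarith
  have h6 : 0 < Real.log 6 := Real.log_pos (by norm_num)
  have hl6 := log6
  -- from the mean bound to the integral mean
  have conv : ∀ l ∈ ball (0 : ℂ) 1, ∀ p e : ℝ, S (bb (Q F l)) 0 (r ^ 2) ≤ C * (1 - r) ^ p →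
      e ≤ p / 2 →
      ((1 / (2 * π)) * ∫ θ in (0 : ℝ)..(2 * π),
          (‖deriv (F l) ((r : ℂ) * Complex.exp ((θ : ℂ) * Complex.I))‖ ^ 2)⁻¹) ^ ((1 : ℝ) / 2) ≤
        Real.sqrt C * ‖deriv (F l) 0‖⁻¹ * (1 - r) ^ e := by
    intro l hl p e hS he
    rw [mean_eq hF hl hr hr1]
    have h1 : Real.sqrt (S (bb (Q F l)) 0 (r ^ 2)) ≤ Real.sqrt C * (1 - r) ^ e := by
      refine (Real.sqrt_le_sqrt hS).trans ?_
      rw [Real.sqrt_mul (by linarith)]
      apply mul_le_mul_of_nonneg_left _ (Real.sqrt_nonneg _)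
      rw [Real.sqrt_eq_rpow, ← Real.rpow_mul h1r.le]
      apply Real.rpow_le_rpow_of_exponent_ge h1r h1r1
      linarith
    calc _ ≤ ‖deriv (F l) 0‖⁻¹ * (Real.sqrt C * (1 - r) ^ e) :=
          mul_le_mul_of_nonneg_left h1 (by positivity)
      _ = _ := by ring
  have hexp : ∀ k : ℝ, 0 ≤ Real.log (1 / k) →
      -((516 : ℝ) / 1000 - 221 / 1000 * Real.log (1 / k)) ≤
        (-(129 / 125 : ℝ) + 99 / 125 * (Real.log (1 / k) / Real.log 6)) / 2 := by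
    intro k hk
    have h1 : 221 / 1000 * Real.log (1 / k) ≤ 99 / 250 * (Real.log (1 / k) / Real.log 6) := by
      rw [← mul_div_assoc, le_div_iff₀ h6]
      nlinarith
    linarith
  constructor
  · intro hl
    have hlb : l ∈ ball (0 : ℂ) 1 := by rw [mem_ball_zero_iff]; linarith
    rcases le_total ‖l‖ (1 / 6) with h | h
    · exact conv l hlb _ _ (hA l h) (by norm_num)
    · have hl1 : ‖l‖ < 1 := by linarith
      have hk0 : 0 < ‖l‖ := by linarith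
      apply conv l hlb _ _ (hB l h hl1)
      have h2 : Real.log (1 / (93 / 100)) ≤ Real.log (1 / ‖l‖) := by
        apply Real.log_le_log (by norm_num)
        exact one_div_le_one_div_of_le hk0 hl
      have h3 := log93
      have h4 := hexp ‖l‖ (by linarith)
      linarith
  · intro h hl1
    have hlb : l ∈ ball (0 : ℂ) 1 := mem_ball_zero_iff.2 hl1
    have hk0 : 0 < ‖l‖ := by linarith
    apply conv l hlb _ _ (hB l h hl1)
    apply hexp
    rw [one_div, Real.log_inv]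
    linarith [Real.log_neg hk0 hl1]

end Pool.Agent.H5.QD
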