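import Pool.Agent.H5.QD.Fam
import Pool.Agent.H58.BJ.Dist

/-!
# Project QD: a holomorphic family of univalent functions is locally bounded
-/

set_option autoImplicit false

namespace Pool.Agent.H5.QD

open Complex Metric Set Filter Topology Pool.Agent.H58.BJ

/-- upper distortion bound -/
theorem distort' {t : ℝ} (ht : t < 1) : ∃ C : ℝ, 0 < C ∧ ∀ f : ℂ → ℂ, Univ f →
    ∀ z : ℂ, ‖z‖ ≤ t → ‖deriv f z‖ ≤ C * ‖deriv f 0‖ := by
  have hs : 0 < 1 - t := by linarith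
  refine ⟨Real.exp (4 / (1 - t) * t), Real.exp_pos _, ?_⟩
  rintro f ⟨hd, hi⟩ z hz
  have ht0 : 0 ≤ t := (norm_nonneg z).trans hz
  have hdd : DifferentiableOn ℂ (deriv f) (ball 0 1) := hd.deriv isOpen_ball
  have hsub : closedBall (0 : ℂ) t ⊆ ball (0 : ℂ) 1 := closedBall_subset_ball ht
  have hne : ∀ z ∈ ball (0 : ℂ) 1, deriv f z ≠ 0 := fun z hz =>
    Pool.Agent.H83.Lo.deriv_ne_zero isOpen_ball hd hi hz
  obtain ⟨L, hL, hL2⟩ :=
    Pool.Agent.H83.Lo.exists_log_convex isOpen_ball (convex_ball (0 : ℂ) 1) hdd hne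
  have hLd : ∀ z ∈ closedBall (0 : ℂ) t, ‖deriv L z‖ ≤ 4 / (1 - t) := by
    intro z hz
    have hzb := hsub hz
    have h2 : HasDerivAt L (deriv L z) z :=
      (hL.differentiableAt (isOpen_ball.mem_nhds hzb)).hasDerivAt
    have h3 : HasDerivAt (fun z => Complex.exp (L z)) (Complex.exp (L z) * deriv L z) z := h2.cexp
    have h4 : (fun z => Complex.exp (L z)) =ᶠ[nhds z] deriv f := by
      filter_upwards [isOpen_ball.mem_nhds hzb] with w hw
      exact hL2 w hw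
    have h5 := (h3.congr_of_eventuallyEq h4.symm).deriv
    have h6 := a9_pre ht hd hi (mem_closedBall_zero_iff.1 hz)
    rw [h5, hL2 z hzb, norm_mul] at h6
    have h7 : 0 < ‖deriv f z‖ := norm_pos_iff.2 (hne z hzb)
    rw [le_div_iff₀ hs]
    have h8 : ‖deriv f z‖ * (‖deriv L z‖ * (1 - t)) ≤ ‖deriv f z‖ * 4 := by linarith
    exact le_of_mul_le_mul_left h8 h7
  have hc0 : (0 : ℂ) ∈ closedBall (0 : ℂ) t := mem_closedBall_self ht0
  have hzc : z ∈ closedBall (0 : ℂ) t := mem_closedBall_zero_iff.2 hz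
  have hLz : ‖L z - L 0‖ ≤ 4 / (1 - t) * t := by
    have h2 := Convex.norm_image_sub_le_of_norm_deriv_le (𝕜 := ℂ) (f := L) (C := 4 / (1 - t))
      (fun w hw => hL.differentiableAt (isOpen_ball.mem_nhds (hsub hw))) hLd
      (convex_closedBall (0 : ℂ) t) hc0 hzc
    rw [sub_zero] at h2
    exact h2.trans (mul_le_mul_of_nonneg_left hz (by positivity))
  have h9 : ‖deriv f z‖ = Real.exp ((L z - L 0).re) * ‖deriv f 0‖ := by
    rw [← hL2 0 (hsub hc0), ← hL2 z (hsub hzc), Complex.norm_exp, Complex.norm_exp,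
      ← Real.exp_add, Complex.sub_re]
    congr 1
    ring
  rw [h9]
  apply mul_le_mul_of_nonneg_right _ (norm_nonneg _)
  apply Real.exp_le_exp.2
  exact (Complex.re_le_norm _).trans hLz

/-- growth bound -/
theorem growth {t : ℝ} (ht : t < 1) : ∃ C : ℝ, 0 ≤ C ∧ ∀ f : ℂ → ℂ, Univ f →
    ∀ z : ℂ, ‖z‖ ≤ t → ‖f z - f 0‖ ≤ C * ‖deriv f 0‖ := by
  obtain ⟨C, hC0, hC⟩ := distort' ht
  refine ⟨C, hC0.le, ?_⟩
  rintro f hf z hz
  have ht0 : 0 ≤ t := (norm_nonneg z).trans hz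
  have hsub : closedBall (0 : ℂ) t ⊆ ball (0 : ℂ) 1 := closedBall_subset_ball ht
  have h2 := Convex.norm_image_sub_le_of_norm_deriv_le (𝕜 := ℂ) (f := f) (C := C * ‖deriv f 0‖)
    (fun w hw => hf.1.differentiableAt (isOpen_ball.mem_nhds (hsub hw)))
    (fun w hw => hC f hf w (mem_closedBall_zero_iff.1 hw))
    (convex_closedBall (0 : ℂ) t) (mem_closedBall_self ht0) (mem_closedBall_zero_iff.2 hz)
  rw [sub_zero] at h2
  refine h2.trans ?_
  have h3 : 0 ≤ C * ‖deriv f 0‖ := mul_nonneg hC0.le (norm_nonneg _)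
  calc C * ‖deriv f 0‖ * ‖z‖ ≤ C * ‖deriv f 0‖ * 1 :=
        mul_le_mul_of_nonneg_left (hz.trans ht.le) h3
    _ = C * ‖deriv f 0‖ := mul_one _

/-- Koebe: the value at `1/2` -/
theorem half {f : ℂ → ℂ} (hf : Univ f) : ‖deriv f 0‖ ≤ 8 * ‖f (1 / 2) - f 0‖ := by
  set g : ℂ → ℂ := fun w => f ((1 / 2 : ℂ) * w) with hg
  have hn : ‖(1 / 2 : ℂ)‖ = 1 / 2 := by simp
  have hmaps : ∀ w ∈ ball (0 : ℂ) 1, (1 / 2 : ℂ) * w ∈ ball (0 : ℂ) 1 := by
    intro w hw
    rw [mem_ball_zero_iff] at hw ⊢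
    rw [norm_mul, hn]
    linarith
  have hgd : DifferentiableOn ℂ g (ball 0 1) :=
    hf.1.comp ((differentiableOn_const _).mul differentiableOn_id) hmaps
  have hgi : InjOn g (ball 0 1) := by
    intro w hw v hv h
    have := hf.2 (hmaps w hw) (hmaps v hv) h
    exact mul_left_cancel₀ (by norm_num) this
  have hnot : f (1 / 2) ∉ g '' ball 0 1 := by
    rintro ⟨w, hw, h⟩
    have h2 : (1 / 2 : ℂ) ∈ ball (0 : ℂ) 1 := by
      rw [mem_ball_zero_iff, hn]; norm_num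
    have h3 := hf.2 (hmaps w hw) h2 h
    have h4 : w = 1 := by
      have : (1 / 2 : ℂ) * w = (1 / 2) * 1 := by rw [h3, mul_one]
      exact mul_left_cancel₀ (by norm_num) this
    rw [h4, mem_ball_zero_iff] at hw
    simp at hw
  have hk := Pool.Agent.H84.SM.koebe hgd hgi hnot
  have hd : deriv g 0 = (1 / 2 : ℂ) * deriv f 0 := by
    have := deriv_comp_mul_left (1 / 2 : ℂ) f 0
    rw [mul_zero, smul_eq_mul] at this
    exact this
  have hg0 : g 0 = f 0 := by rw [hg]; simp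
  rw [hd, hg0, norm_mul, hn] at hk
  linarith

/-- a family of univalent functions, holomorphic in the parameter -/
def UFam (F : ℂ → ℂ → ℂ) : Prop :=
  (∀ l ∈ ball (0 : ℂ) 1, Univ (F l)) ∧
  (∀ z ∈ ball (0 : ℂ) 1, DifferentiableOn ℂ (fun l => F l z) (ball 0 1))

theorem UFam.fam {F : ℂ → ℂ → ℂ} (hF : UFam F) : Fam F := by
  obtain ⟨h1, h2⟩ := hF
  refine ⟨fun l hl => (h1 l hl).1, h2, ?_⟩
  intro ρ hρ
  obtain ⟨C, hC0, hC⟩ := growth hρ
  have hhalf : (1 / 2 : ℂ) ∈ ball (0 : ℂ) 1 := by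
    rw [mem_ball_zero_iff]; simp; norm_num
  have h0 : (0 : ℂ) ∈ ball (0 : ℂ) 1 := mem_ball_self one_pos
  have hsub : closedBall (0 : ℂ) ρ ⊆ ball (0 : ℂ) 1 := closedBall_subset_ball hρ
  obtain ⟨A, hA⟩ := (isCompact_closedBall (0 : ℂ) ρ).exists_bound_of_continuousOn
    (((h2 0 h0).continuousOn).mono hsub)
  obtain ⟨B, hB⟩ := (isCompact_closedBall (0 : ℂ) ρ).exists_bound_of_continuousOn
    (((h2 _ hhalf).continuousOn).mono hsub)
  refine ⟨A + C * (8 * (B + A)), ?_⟩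
  intro l hl z hz
  have hlm : l ∈ closedBall (0 : ℂ) ρ := mem_closedBall_zero_iff.2 hl
  have hU := h1 l (hsub hlm)
  have e1 := hC (F l) hU z hz
  have e2 := half hU
  have e3 := hA l hlm
  have e4 := hB l hlm

  have e5 : ‖F l (1 / 2) - F l 0‖ ≤ B + A := (norm_sub_le _ _).trans (by linarith)
  calc ‖F l z‖ = ‖F l 0 + (F l z - F l 0)‖ := by rw [add_sub_cancel]
    _ ≤ ‖F l 0‖ + ‖F l z - F l 0‖ := norm_add_le _ _
    _ ≤ A + C * (8 * (B + A)) := by
      have e6 : C * ‖deriv (F l) 0‖ ≤ C * (8 * (B + A)) := by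
        apply mul_le_mul_of_nonneg_left _ hC0
        linarith
      linarith

/-- the normalised reciprocal derivatives -/
noncomputable def Q (F : ℂ → ℂ → ℂ) (l z : ℂ) : ℂ := deriv (F l) 0 / deriv (F l) z

theorem UFam.ne {F : ℂ → ℂ → ℂ} (hF : UFam F) {l z : ℂ} (hl : l ∈ ball (0 : ℂ) 1)
    (hz : z ∈ ball (0 : ℂ) 1) : deriv (F l) z ≠ 0 :=
  Pool.Agent.H83.Lo.deriv_ne_zero isOpen_ball (hF.1 l hl).1 (hF.1 l hl).2 hz

theorem UFam.famQ {F : ℂ → ℂ → ℂ} (hF : UFam F) : Fam (Q F) := by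
  have h := hF.fam.deriv
  have h0 : (0 : ℂ) ∈ ball (0 : ℂ) 1 := mem_ball_self one_pos
  refine ⟨?_, ?_, ?_⟩
  · intro l hl
    exact (differentiableOn_const _).div (h.1 l hl) (fun z hz => hF.ne hl hz)
  · intro z hz
    exact (h.2.1 0 h0).div (h.2.1 z hz) (fun l hl => hF.ne hl hz)
  · intro ρ hρ
    obtain ⟨C, hC0, hC⟩ := distort hρ
    refine ⟨C, ?_⟩
    intro l hl z hz
    have hl1 : l ∈ ball (0 : ℂ) 1 := by rw [mem_ball_zero_iff]; linarith
    have hz1 : z ∈ ball (0 : ℂ) 1 := by rw [mem_ball_zero_iff]; linarith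
    have := hC (F l) (hF.1 l hl1) z hz
    unfold QD.Q
    rw [norm_div, div_le_iff₀ (norm_pos_iff.2 (hF.ne hl1 hz1))]
    exact this

end Pool.Agent.H5.QD
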