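import Pool.Agent.H5.QD.Loc
import Pool.Agent.H58.BJ.Asm

/-!
# Project QD: the pre-Schwarzian of a holomorphic family of univalent functions
-/

set_option autoImplicit false

namespace Pool.Agent.H5.QD

open Complex Metric Set Filter Topology Pool.Agent.H58.BJ
open scoped ComplexConjugate

/-- Bieberbach at every point -/
theorem pre_disc {f : ℂ → ℂ} (hf : Univ f) {z : ℂ} (hz : ‖z‖ < 1) (hz0 : z ≠ 0) :
    ‖eta f z 0 + 2 * ((‖z‖ ^ 2 : ℝ) : ℂ)‖ ≤ 4 := by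
  obtain ⟨c, r, hc0, hS, hR, hY⟩ := local_rel hf hz hz0
  have h1 := hR 0
  have h2 := hY 0
  have h3 := hS 1 0 1
  simp [vv, hc0] at h1
  simp at h2
  simp [hc0] at h3
  have e1 : r 0 = -4 * c 1 := by rw [h1]; ring
  have e2 : eta f z 0 + 2 * ((‖z‖ ^ 2 : ℝ) : ℂ) = -4 * c 1 := by
    rw [← e1, h2]
    push_cast
    ring
  have hc1 : ‖c 1‖ ≤ 1 := by
    nlinarith [norm_nonneg (c 1)]
  rw [e2, norm_mul]
  have : ‖(-4 : ℂ)‖ = 4 := by simp
  rw [this]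
  linarith

/-- Schwarz-Pick for maps into the disc of centre `-2ρ` and radius `4`, `0 ↦ 0` -/
theorem pick {p : ℂ → ℂ} (hp : DifferentiableOn ℂ p (ball 0 1)) {ρ : ℝ} (h0 : 0 ≤ ρ) (h1 : ρ ≤ 1)
    (hb : ∀ l ∈ ball (0 : ℂ) 1, ‖p l + 2 * (ρ : ℂ)‖ ≤ 4) (hp0 : p 0 = 0) {l : ℂ} (hl : ‖l‖ < 1) :
    ‖p l‖ ≤ ‖l‖ * (16 - 4 * ρ ^ 2) / (4 - 2 * ‖l‖ * ρ) := by
  -- `T = (u - u₀)/(1 - u₀ u)`, `u = (p + 2ρ)/4`, `u₀ = ρ/2`
  set T : ℂ → ℂ := fun l => p l / (4 - (ρ : ℂ) * (p l + 2 * ρ) / 2) with hT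
  have hden : ∀ l ∈ ball (0 : ℂ) 1, (4 - (ρ : ℂ) * (p l + 2 * ρ) / 2) ≠ 0 := by
    intro l hl h
    have h2 : (4 : ℂ) = (ρ : ℂ) * (p l + 2 * ρ) / 2 := sub_eq_zero.1 h
    have h3 : ‖(4 : ℂ)‖ = ρ * ‖p l + 2 * ρ‖ / 2 := by
      rw [h2, norm_div, norm_mul, Complex.norm_real, Real.norm_of_nonneg h0]
      simp
    have h4 := hb l hl
    have h5 : ‖(4 : ℂ)‖ = 4 := by simp
    rw [h5] at h3
    nlinarith [norm_nonneg (p l + 2 * ρ)]
  have hTd : DifferentiableOn ℂ T (ball 0 1) := by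
    apply hp.div _ hden
    exact (differentiableOn_const _).sub (((differentiableOn_const _).mul
      (hp.add (differentiableOn_const _))).div_const _)
  have hT1 : ∀ l ∈ ball (0 : ℂ) 1, ‖T l‖ ≤ 1 := by
    intro l hl
    have h2 := hden l hl
    rw [hT]
    simp only
    rw [norm_div, div_le_one (norm_pos_iff.2 h2)]
    -- squares
    have h3 := hb l hl
    set a : ℂ := p l + 2 * ρ with ha
    have hpa : p l = a - 2 * ρ := by rw [ha]; ring
    rw [hpa]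
    have h4 : ‖a - 2 * ρ‖ ^ 2 ≤ ‖4 - (ρ : ℂ) * a / 2‖ ^ 2 := by
      rw [← Complex.normSq_eq_norm_sq, ← Complex.normSq_eq_norm_sq, Complex.normSq_apply,
        Complex.normSq_apply]
      have h5 : ‖a‖ ^ 2 = a.re * a.re + a.im * a.im := by
        rw [← Complex.normSq_eq_norm_sq, Complex.normSq_apply]
      have h6 : ‖a‖ ^ 2 ≤ 16 := by nlinarith [norm_nonneg a]
      have e1 : (a - 2 * ρ).re = a.re - 2 * ρ := by simp
      have e2 : (a - 2 * ρ).im = a.im := by simp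
      have e3 : (4 - (ρ : ℂ) * a / 2).re = 4 - ρ * a.re / 2 := by
        have : (ρ : ℂ) * a / 2 = ((ρ / 2 : ℝ) : ℂ) * a := by push_cast; ring
        rw [this, Complex.sub_re, Complex.re_ofReal_mul]
        simp
        ring
      have e4 : (4 - (ρ : ℂ) * a / 2).im = - (ρ * a.im / 2) := by
        have : (ρ : ℂ) * a / 2 = ((ρ / 2 : ℝ) : ℂ) * a := by push_cast; ring
        rw [this, Complex.sub_im, Complex.im_ofReal_mul]
        simp
        ring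
      rw [e1, e2, e3, e4]
      have h7 : 0 ≤ (16 - ‖a‖ ^ 2) * (1 - ρ ^ 2 / 4) := by
        apply mul_nonneg (by linarith)
        nlinarith
      rw [h5] at h7
      nlinarith [h7]
    exact le_of_sq_le_sq h4 (norm_nonneg _)
  have hT0 : T 0 = 0 := by rw [hT]; simp [hp0]
  have hS := Complex.norm_le_norm_of_mapsTo_ball hTd
    (fun l hl => mem_closedBall_zero_iff.2 (hT1 l hl)) hT0 hl
  set k := ‖l‖ with hk
  have hlb : l ∈ ball (0 : ℂ) 1 := mem_ball_zero_iff.2 hl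
  have h2 := hden l hlb
  have h3 : p l = T l * (4 - ρ ^ 2) / (1 + T l * ρ / 2) := by
    have h4 : (1 + T l * ρ / 2) ≠ 0 := by
      intro h
      have h5 : ‖T l * ρ / 2‖ = 1 := by
        have : T l * ρ / 2 = -1 := by linear_combination h
        rw [this]; simp
      rw [norm_div, norm_mul, Complex.norm_real, Real.norm_of_nonneg h0] at h5
      have h6 : ‖(2 : ℂ)‖ = 2 := by simp
      rw [h6] at h5
      have h7 := hT1 l hlb
      nlinarith [norm_nonneg (T l)]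
    rw [eq_div_iff h4]
    have h5 : T l * (4 - (ρ : ℂ) * (p l + 2 * ρ) / 2) = p l := by
      rw [hT]; simp only; rw [div_mul_cancel₀ _ h2]
    linear_combination (-1 : ℂ) * h5
  have hk0 : 0 ≤ k := norm_nonneg _
  have h4 : 0 < 1 - k * ρ / 2 := by nlinarith
  have h5 : 1 - k * ρ / 2 ≤ ‖1 + T l * ρ / 2‖ := by
    have h6 : ‖T l * ρ / 2‖ ≤ k * ρ / 2 := by
      rw [norm_div, norm_mul, Complex.norm_real, Real.norm_of_nonneg h0]
      have h6 : ‖(2 : ℂ)‖ = 2 := by simp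
      rw [h6]
      have := mul_le_mul_of_nonneg_right hS h0
      linarith
    have h7 : ‖(1 : ℂ)‖ - ‖-(T l * ρ / 2)‖ ≤ ‖(1 : ℂ) - -(T l * ρ / 2)‖ := norm_sub_norm_le _ _
    rw [norm_neg, sub_neg_eq_add, norm_one] at h7
    linarith
  have h6 : ‖(4 : ℂ) - ρ ^ 2‖ = 4 - ρ ^ 2 := by
    have : (4 : ℂ) - ρ ^ 2 = ((4 - ρ ^ 2 : ℝ) : ℂ) := by push_cast; ring
    rw [this, Complex.norm_real, Real.norm_of_nonneg (by nlinarith)]
  rw [h3, norm_div, norm_mul, h6]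
  have h7 : k * (16 - 4 * ρ ^ 2) / (4 - 2 * k * ρ) = k * (4 - ρ ^ 2) / (1 - k * ρ / 2) := by
    rw [div_eq_div_iff (by nlinarith) h4.ne']
    ring
  rw [h7]
  apply div_le_div₀ _ _ h4 h5
  · apply mul_nonneg hk0; nlinarith
  · apply mul_le_mul_of_nonneg_right hS; nlinarith

/-- the pre-Schwarzian of a family starting at the identity -/
theorem UFam.pre {F : ℂ → ℂ → ℂ} (hF : UFam F) (h0 : ∀ z ∈ ball (0 : ℂ) 1, F 0 z = z) {l z : ℂ}
    (hl : ‖l‖ < 1) (hz : ‖z‖ < 1) (hz0 : z ≠ 0) :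
    ‖eta (F l) z 0‖ ≤ ‖l‖ * (16 - 4 * (‖z‖ ^ 2) ^ 2) / (4 - 2 * ‖l‖ * ‖z‖ ^ 2) := by
  have hzb : z ∈ ball (0 : ℂ) 1 := mem_ball_zero_iff.2 hz
  have hd := hF.fam.deriv
  have hdd := hd.deriv
  have he : ∀ l, eta (F l) z 0 =
      -(z * ((1 - ‖z‖ ^ 2 : ℝ) : ℂ)) * (deriv (deriv (F l)) z / deriv (F l) z) := by
    intro l
    simp [Pool.Agent.H58.BJ.eta, jP, iteratedDeriv_zero]
  apply pick (p := fun l => eta (F l) z 0) (ρ := ‖z‖ ^ 2) ?_ (by positivity) ?_ ?_ ?_ hl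
  · simp only [he]
    apply DifferentiableOn.mul (differentiableOn_const _)
    exact (hdd.2.1 z hzb).div (hd.2.1 z hzb) (fun l hl => hF.ne hl hzb)
  · nlinarith [norm_nonneg z]
  · intro l hl
    exact pre_disc (hF.1 l hl) hz hz0
  · have h1 : deriv (F 0) =ᶠ[𝓝 z] fun _ => 1 := by
      filter_upwards [isOpen_ball.mem_nhds hzb] with w hw
      have : F 0 =ᶠ[𝓝 w] fun w => w := by
        filter_upwards [isOpen_ball.mem_nhds hw] with v hv
        exact h0 v hv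
      rw [this.deriv_eq]
      simp
    have h2 : deriv (deriv (F 0)) z = 0 := by
      rw [h1.deriv_eq]
      simp
    simp only [he]
    rw [h2]
    simp

end Pool.Agent.H5.QD
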