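import Mathlib

/-!
# Project QD: a differential inequality for power series with nonnegative coefficients
-/

set_option autoImplicit false

namespace Pool.Agent.H5.QD

open Set Filter Topology

/-- `∑ n^j b_n x^n` -/
noncomputable def S (b : ℕ → ℝ) (j : ℕ) (x : ℝ) : ℝ := ∑' n : ℕ, (n : ℝ) ^ j * b n * x ^ n

theorem S_summ {b : ℕ → ℝ} (hb : ∀ n, 0 ≤ b n)
    (hs : ∀ x : ℝ, 0 ≤ x → x < 1 → Summable (fun n : ℕ => b n * x ^ n)) (j : ℕ) {x : ℝ}
    (hx : 0 ≤ x) (hx1 : x < 1) : Summable (fun n : ℕ => (n : ℝ) ^ j * b n * x ^ n) := by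
  set y : ℝ := (x + 1) / 2 with hy
  have hy0 : 0 < y := by rw [hy]; linarith
  have hy1 : y < 1 := by rw [hy]; linarith
  have hq0 : 0 ≤ x / y := by positivity
  have hq1 : x / y < 1 := by rw [div_lt_one hy0, hy]; linarith
  have h1 := hs y hy0.le hy1
  obtain ⟨B, hB⟩ := h1.tendsto_atTop_zero.bddAbove_range
  have h2 : Summable (fun n : ℕ => (n : ℝ) ^ j * (x / y) ^ n) :=
    summable_pow_mul_geometric_of_norm_lt_one j (by rw [Real.norm_of_nonneg hq0]; exact hq1)
  refine Summable.of_nonneg_of_le ?_ ?_ (h2.mul_left B)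
  · intro n
    exact mul_nonneg (mul_nonneg (by positivity) (hb n)) (by positivity)
  · intro n
    have h3 : b n * y ^ n ≤ B := hB ⟨n, rfl⟩
    have h5 : x ^ n = y ^ n * (x / y) ^ n := by
      rw [← mul_pow, mul_div_cancel₀ _ hy0.ne']
    have h4 : (n : ℝ) ^ j * b n * x ^ n = (b n * y ^ n) * ((n : ℝ) ^ j * (x / y) ^ n) := by
      rw [h5]
      ring
    rw [h4]
    exact mul_le_mul_of_nonneg_right h3 (by positivity)

theorem S_nonneg {b : ℕ → ℝ} (hb : ∀ n, 0 ≤ b n) (j : ℕ) {x : ℝ} (hx : 0 ≤ x) : 0 ≤ S b j x :=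
  tsum_nonneg fun n => mul_nonneg (mul_nonneg (by positivity) (hb n)) (by positivity)

theorem S_deriv {b : ℕ → ℝ} (hb : ∀ n, 0 ≤ b n)
    (hs : ∀ x : ℝ, 0 ≤ x → x < 1 → Summable (fun n : ℕ => b n * x ^ n)) (j : ℕ) {x : ℝ}
    (hx : 0 < x) (hx1 : x < 1) : HasDerivAt (S b j) (S b (j + 1) x / x) x := by
  set y : ℝ := (x + 1) / 2 with hy
  have hy0 : 0 < y := by rw [hy]; linarith
  have hy1 : y < 1 := by rw [hy]; linarith
  have hxy : x < y := by rw [hy]; linarith
  have hu : Summable (fun n : ℕ => (n : ℝ) ^ (j + 1) * b n * y ^ n / y) :=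
    (S_summ hb hs (j + 1) hy0.le hy1).div_const y
  have key := hasDerivAt_tsum_of_isPreconnected (t := Ioo 0 y)
    (g := fun (n : ℕ) (x : ℝ) => (n : ℝ) ^ j * b n * x ^ n)
    (g' := fun (n : ℕ) (x : ℝ) => (n : ℝ) ^ j * b n * ((n : ℝ) * x ^ (n - 1))) (y₀ := x) (y := x)
    hu isOpen_Ioo isPreconnected_Ioo ?_ ?_ ⟨hx, hxy⟩ (S_summ hb hs j hx.le hx1) ⟨hx, hxy⟩
  · have e : (∑' n : ℕ, (n : ℝ) ^ j * b n * ((n : ℝ) * x ^ (n - 1))) = S b (j + 1) x / x := by
      unfold S
      rw [← tsum_div_const]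
      apply tsum_congr
      intro n
      rcases Nat.eq_zero_or_pos n with hn | hn
      · subst hn
        simp
      · obtain ⟨m, rfl⟩ := Nat.exists_eq_succ_of_ne_zero hn.ne'
        rw [Nat.succ_sub_one, pow_succ, pow_succ]
        field_simp
    rw [← e]
    exact key
  · intro n z _
    exact ((hasDerivAt_pow n z).const_mul _)
  · intro n z hz
    have hz0 : 0 < z := hz.1
    have h0 : 0 ≤ (n : ℝ) ^ j * b n * ((n : ℝ) * z ^ (n - 1)) :=
      mul_nonneg (mul_nonneg (by positivity) (hb n)) (by positivity)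
    rw [Real.norm_of_nonneg h0]
    rcases Nat.eq_zero_or_pos n with hn | hn
    · subst hn
      simp
    · obtain ⟨m, rfl⟩ := Nat.exists_eq_succ_of_ne_zero hn.ne'
      rw [Nat.succ_sub_one]
      have h1 : z ^ m ≤ y ^ m := pow_le_pow_left₀ hz0.le hz.2.le m
      have h2 : (((m.succ : ℕ) : ℝ)) ^ (j + 1) * b m.succ * y ^ m.succ / y =
          ((m.succ : ℕ) : ℝ) ^ j * b m.succ * (((m.succ : ℕ) : ℝ) * y ^ m) := by
        rw [pow_succ, pow_succ]
        field_simp
      rw [h2]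
      apply mul_le_mul_of_nonneg_left _ (mul_nonneg (by positivity) (hb _))
      exact mul_le_mul_of_nonneg_left h1 (by positivity)

theorem pow_deriv {p s : ℝ} (hs : s < 1) :
    HasDerivAt (fun s : ℝ => (1 - s) ^ p) (-(p * (1 - s) ^ (p - 1))) s := by
  have h1 : HasDerivAt (fun s : ℝ => 1 - s) (-1) s := by
    simpa using (hasDerivAt_id s).const_sub 1
  have h2 := h1.rpow_const (p := p) (Or.inl (sub_ne_zero.2 hs.ne'))
  have h3 : (-1 : ℝ) * p * (1 - s) ^ (p - 1) = -(p * (1 - s) ^ (p - 1)) := by ring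
  rw [h3] at h2
  exact h2

/-- **The differential inequality.** -/
theorem ode {b : ℕ → ℝ} (hb : ∀ n, 0 ≤ b n)
    (hs : ∀ x : ℝ, 0 ≤ x → x < 1 → Summable (fun n : ℕ => b n * x ^ n)) {x1 c β : ℝ}
    (h0 : 0 < x1) (h1 : x1 < 1) (hc0 : 0 ≤ c) (hβ : 0 < β) (hc : c < x1 ^ 2 * (β * (β + 1)))
    (hI : ∀ x : ℝ, x1 ≤ x → x < 1 → S b 2 x ≤ c / (1 - x) ^ 2 * S b 0 x) {X : ℝ}
    (hX : x1 ≤ X) (hX1 : X < 1) :
    S b 0 X ≤ (S b 0 x1 + S b 1 x1 / x1) / (1 - c / (x1 ^ 2 * (β * (β + 1)))) *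
      (1 - X) ^ (-β) := by
  have hd : ∀ j : ℕ, ∀ x : ℝ, 0 < x → x < 1 → HasDerivAt (S b j) (S b (j + 1) x / x) x :=
    fun j x hx hx1 => S_deriv hb hs j hx hx1
  -- the maximum of `A (1-x)^β`
  obtain ⟨t, ht, hmax⟩ := isCompact_Icc.exists_isMaxOn (nonempty_Icc.2 hX)
    (f := fun x => S b 0 x * (1 - x) ^ β) (by
      intro x hx
      have hx0 : 0 < x := h0.trans_le hx.1
      have hx1 : x < 1 := hx.2.trans_lt hX1
      exact ((hd 0 x hx0 hx1).continuousAt.mul
        (pow_deriv (p := β) hx1).continuousAt).continuousWithinAt)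
  set K : ℝ := S b 0 t * (1 - t) ^ β with hK
  have ht0 : 0 < t := h0.trans_le ht.1
  have ht1 : t < 1 := ht.2.trans_lt hX1
  have hK0 : 0 ≤ K := mul_nonneg (S_nonneg hb 0 ht0.le) (Real.rpow_nonneg (by linarith) _)
  have hA : ∀ s : ℝ, x1 ≤ s → s ≤ X → S b 0 s ≤ K * (1 - s) ^ (-β) := by
    intro s hs1 hs2
    have h2 : S b 0 s * (1 - s) ^ β ≤ K := hmax (show s ∈ Icc x1 X from ⟨hs1, hs2⟩)
    have h3 : 0 < 1 - s := by linarith
    have h4 : S b 0 s = S b 0 s * (1 - s) ^ β * (1 - s) ^ (-β) := by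
      rw [mul_assoc, ← Real.rpow_add h3, add_neg_cancel, Real.rpow_zero, mul_one]
    rw [h4]
    exact mul_le_mul_of_nonneg_right h2 (Real.rpow_nonneg h3.le _)
  -- step 1
  have hstep1 : ∀ s : ℝ, x1 ≤ s → s ≤ t →
      S b 1 s ≤ S b 1 x1 + c * K / (x1 * (β + 1)) * (1 - s) ^ (-β - 1) := by
    set φ : ℝ → ℝ := fun s => S b 1 s - c * K / (x1 * (β + 1)) * (1 - s) ^ (-β - 1) with hφ
    have hφd : ∀ s : ℝ, x1 ≤ s → s ≤ t → HasDerivAt φ
        (S b 2 s / s - c * K / (x1 * (β + 1)) * (-((-β - 1) * (1 - s) ^ (-β - 1 - 1)))) s := by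
      intro s hs1 hs2
      exact (hd 1 s (h0.trans_le hs1) (hs2.trans_lt ht1)).sub
        ((pow_deriv (hs2.trans_lt ht1)).const_mul _)
    have hanti : AntitoneOn φ (Icc x1 t) := by
      apply antitoneOn_of_deriv_nonpos (convex_Icc _ _)
      · intro s hs
        exact (hφd s hs.1 hs.2).continuousAt.continuousWithinAt
      · intro s hs
        rw [interior_Icc] at hs
        exact (hφd s hs.1.le hs.2.le).differentiableAt.differentiableWithinAt
      · intro s hs
        rw [interior_Icc] at hs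
        rw [(hφd s hs.1.le hs.2.le).deriv]
        have hs0 : 0 < s := h0.trans hs.1
        have hs1 : s < 1 := hs.2.trans ht1
        have h1s : 0 < 1 - s := by linarith
        have e1 : c * K / (x1 * (β + 1)) * (-((-β - 1) * (1 - s) ^ (-β - 1 - 1))) =
            c * K / x1 * (1 - s) ^ (-β - 2) := by
          have : (-β - 1 - 1 : ℝ) = -β - 2 := by ring
          rw [this]
          have hβ1 : β + 1 ≠ 0 := by positivity
          field_simp
          ring
        have e2 : S b 2 s ≤ c * K * (1 - s) ^ (-β - 2) := by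
          have h2 := hI s hs.1.le hs1
          have h3 := hA s hs.1.le (hs.2.le.trans ht.2)
          have h4 : c / (1 - s) ^ 2 * S b 0 s ≤ c / (1 - s) ^ 2 * (K * (1 - s) ^ (-β)) :=
            mul_le_mul_of_nonneg_left h3 (by positivity)
          have h5 : c / (1 - s) ^ 2 * (K * (1 - s) ^ (-β)) = c * K * (1 - s) ^ (-β - 2) := by
            rw [Real.rpow_sub h1s, ← Real.rpow_natCast (1 - s) 2]
            push_cast
            field_simp
          linarith
        have e3 : S b 2 s / s ≤ c * K * (1 - s) ^ (-β - 2) / x1 := by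
          apply div_le_div₀ _ e2 h0 hs.1.le
          positivity
        have e4 : c * K * (1 - s) ^ (-β - 2) / x1 = c * K / x1 * (1 - s) ^ (-β - 2) := by ring
        rw [e1]
        linarith
    intro s hs1 hs2
    have h2 := hanti (left_mem_Icc.2 (hs1.trans hs2)) (show s ∈ Icc x1 t from ⟨hs1, hs2⟩) hs1
    simp only [hφ] at h2
    have h3 : 0 ≤ c * K / (x1 * (β + 1)) * (1 - x1) ^ (-β - 1) := by
      have : 0 ≤ (1 - x1) ^ (-β - 1) := Real.rpow_nonneg (by linarith) _
      positivity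
    linarith
  -- step 2
  set q : ℝ := c / (x1 ^ 2 * (β * (β + 1))) with hq
  have hq0 : 0 ≤ q := by positivity
  have hq1 : q < 1 := by
    rw [hq, div_lt_one (by positivity)]
    exact hc
  have hstep2 : S b 0 t ≤ S b 0 x1 + S b 1 x1 / x1 + q * K * (1 - t) ^ (-β) := by
    set ψ : ℝ → ℝ := fun s => S b 0 s - S b 1 x1 / x1 * s - q * K * (1 - s) ^ (-β) with hψ
    have hψd : ∀ s : ℝ, x1 ≤ s → s ≤ t → HasDerivAt ψ
        (S b 1 s / s - S b 1 x1 / x1 * 1 - q * K * (-((-β) * (1 - s) ^ (-β - 1)))) s := by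
      intro s hs1 hs2
      exact ((hd 0 s (h0.trans_le hs1) (hs2.trans_lt ht1)).sub
        ((hasDerivAt_id s).const_mul _)).sub ((pow_deriv (hs2.trans_lt ht1)).const_mul _)
    have hanti : AntitoneOn ψ (Icc x1 t) := by
      apply antitoneOn_of_deriv_nonpos (convex_Icc _ _)
      · intro s hs
        exact (hψd s hs.1 hs.2).continuousAt.continuousWithinAt
      · intro s hs
        rw [interior_Icc] at hs
        exact (hψd s hs.1.le hs.2.le).differentiableAt.differentiableWithinAt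
      · intro s hs
        rw [interior_Icc] at hs
        rw [(hψd s hs.1.le hs.2.le).deriv]
        have hs0 : 0 < s := h0.trans hs.1
        have hs1 : s < 1 := hs.2.trans ht1
        have h1s : 0 < 1 - s := by linarith
        have h2 := hstep1 s hs.1.le hs.2.le
        have h3 : S b 1 s / s ≤ (S b 1 x1 + c * K / (x1 * (β + 1)) * (1 - s) ^ (-β - 1)) / x1 := by
          apply div_le_div₀ _ h2 h0 hs.1.le
          have := S_nonneg hb 1 h0.le
          have : 0 ≤ (1 - s) ^ (-β - 1) := Real.rpow_nonneg h1s.le _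
          positivity
        have h4 : (S b 1 x1 + c * K / (x1 * (β + 1)) * (1 - s) ^ (-β - 1)) / x1 =
            S b 1 x1 / x1 + q * K * (β * (1 - s) ^ (-β - 1)) := by
          rw [hq]
          have hβ1 : β + 1 ≠ 0 := by positivity
          field_simp
        have h5 : q * K * (-((-β) * (1 - s) ^ (-β - 1))) = q * K * (β * (1 - s) ^ (-β - 1)) := by
          ring
        rw [h5]
        linarith
    have h2 := hanti (left_mem_Icc.2 ht.1) (right_mem_Icc.2 ht.1) ht.1
    simp only [hψ] at h2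
    have h3 : 0 ≤ q * K * (1 - x1) ^ (-β) := by
      have : 0 ≤ (1 - x1) ^ (-β) := Real.rpow_nonneg (by linarith) _
      positivity
    have h4 : S b 1 x1 / x1 * (t - x1) ≤ S b 1 x1 / x1 * 1 := by
      apply mul_le_mul_of_nonneg_left (by linarith)
      have := S_nonneg hb 1 h0.le
      positivity
    linarith
  -- conclusion
  have h1t : 0 < 1 - t := by linarith
  have hAt : S b 0 t = K * (1 - t) ^ (-β) := by
    rw [hK, mul_assoc, ← Real.rpow_add h1t, add_neg_cancel, Real.rpow_zero, mul_one]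
  set M : ℝ := S b 0 x1 + S b 1 x1 / x1 with hM
  have hM0 : 0 ≤ M := by
    have := S_nonneg hb 1 h0.le
    have := S_nonneg hb 0 h0.le
    positivity
  have hKM : K ≤ M / (1 - q) := by
    have h2 : K * (1 - t) ^ (-β) * (1 - q) ≤ M := by
      rw [hAt] at hstep2
      linarith
    have h3 : 1 ≤ (1 - t) ^ (-β) := by
      rw [Real.rpow_neg h1t.le]
      apply (one_le_inv₀ (Real.rpow_pos_of_pos h1t _)).2
      exact Real.rpow_le_one h1t.le (by linarith) hβ.le
    rw [le_div_iff₀ (by linarith)]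
    have h4 : K * (1 - q) ≤ K * (1 - t) ^ (-β) * (1 - q) := by
      apply mul_le_mul_of_nonneg_right _ (by linarith)
      calc K = K * 1 := (mul_one _).symm
        _ ≤ _ := mul_le_mul_of_nonneg_left h3 hK0
    linarith
  exact (hA X hX le_rfl).trans (mul_le_mul_of_nonneg_right hKM (Real.rpow_nonneg (by linarith) _))

end Pool.Agent.H5.QD
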