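import Pool.Agent.H5.QD.Pre
import Pool.Agent.H5.QD.Real
import Pool.Agent.H58.BJ.Pars

/-!
# Project QD: the mean bound for small parameters
-/

set_option autoImplicit false

namespace Pool.Agent.H5.QD

open Complex Metric Set Filter Topology MeasureTheory Pool.Agent.H58.BJ
open scoped Real ComplexConjugate

theorem pars {A : ℝ → ℂ} {a : ℕ → ℂ} (ha : Summable fun m => ‖a m‖) (hAc : Continuous A)
    (hA : ∀ θ : ℝ, HasSum (fun m : ℕ => a m * cexp ((m : ℂ) * θ * I)) (A θ)) :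
    HasSum (fun m : ℕ => 2 * π * ‖a m‖ ^ 2) (∫ θ in (0 : ℝ)..(2 * π), ‖A θ‖ ^ 2) := by
  have h := a15_parseval ha ha hAc hA hA
  have e1 : ∀ m, 2 * (π : ℂ) * (a m * conj (a m)) = ((2 * π * ‖a m‖ ^ 2 : ℝ) : ℂ) := by
    intro m
    rw [Complex.mul_conj, Complex.normSq_eq_norm_sq]
    push_cast
    ring
  have e2 : (∫ θ in (0 : ℝ)..(2 * π), conj (A θ) * A θ) =
      ((∫ θ in (0 : ℝ)..(2 * π), ‖A θ‖ ^ 2 : ℝ) : ℂ) := by
    rw [← intervalIntegral.integral_ofReal]
    congr 1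
    funext θ
    rw [← Complex.normSq_eq_conj_mul_self, Complex.normSq_eq_norm_sq]
  simp only [e1] at h
  rw [e2] at h
  have h2 := Complex.hasSum_re h
  simpa only [Complex.ofReal_re] using h2

theorem pars2 {A : ℂ → ℂ} {a : ℕ → ℂ}
    (hA : ∀ z ∈ ball (0 : ℂ) 1, HasSum (fun m : ℕ => a m * z ^ m) (A z))
    (hc : ContinuousOn A (ball 0 1)) {t : ℝ} (ht : 0 ≤ t) (ht1 : t < 1) :
    HasSum (fun m : ℕ => 2 * π * (‖a m‖ ^ 2 * (t ^ 2) ^ m))
      (∫ θ in (0 : ℝ)..(2 * π), ‖A (circleMap 0 t θ)‖ ^ 2) := by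
  have hmem : ∀ θ : ℝ, circleMap 0 t θ ∈ ball (0 : ℂ) 1 := by
    intro θ
    rw [mem_ball_zero_iff, norm_circleMap_zero, abs_of_nonneg ht]
    exact ht1
  have hB : ∀ θ : ℝ, HasSum (fun m : ℕ => (a m * (t : ℂ) ^ m) * cexp ((m : ℂ) * θ * I))
      (A (circleMap 0 t θ)) := by
    intro θ
    have h := hA _ (hmem θ)
    have e : (fun m : ℕ => a m * (circleMap 0 t θ) ^ m) =
        fun m : ℕ => (a m * (t : ℂ) ^ m) * cexp ((m : ℂ) * θ * I) := by
      ext m
      rw [a15_pow]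
      ring
    rw [e] at h
    exact h
  have sa : Summable (fun m => ‖a m * (t : ℂ) ^ m‖) := by
    have h := (hB 0).summable.norm
    simpa [norm_mul, a15_norm_exp] using h
  have hcc : Continuous (fun θ : ℝ => A (circleMap 0 t θ)) :=
    hc.comp_continuous (continuous_circleMap 0 t) hmem
  have h := pars sa hcc hB
  have e : ∀ m : ℕ, 2 * π * ‖a m * (t : ℂ) ^ m‖ ^ 2 = 2 * π * (‖a m‖ ^ 2 * (t ^ 2) ^ m) := by
    intro m
    rw [norm_mul, norm_pow, Complex.norm_real, Real.norm_of_nonneg ht, mul_pow, ← pow_mul,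
      ← pow_mul, mul_comm m 2]
  simp only [e] at h
  exact h

/-- squares of the coefficients -/
noncomputable def bb (q : ℂ → ℂ) (n : ℕ) : ℝ := ‖co q n‖ ^ 2

theorem bb_nonneg (q : ℂ → ℂ) (n : ℕ) : 0 ≤ bb q n := by unfold bb; positivity

theorem S0_eq {q : ℂ → ℂ} (hq : DifferentiableOn ℂ q (ball 0 1)) {t : ℝ} (ht : 0 ≤ t)
    (ht1 : t < 1) : 2 * π * S (bb q) 0 (t ^ 2) =
      ∫ θ in (0 : ℝ)..(2 * π), ‖q (circleMap 0 t θ)‖ ^ 2 := by
  rw [← (pars2 (fun z hz => a15_taylor hq hz) hq.continuousOn ht ht1).tsum_eq]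
  unfold S bb
  rw [← tsum_mul_left]
  apply tsum_congr
  intro n
  simp

theorem S2_eq {q : ℂ → ℂ} (hq : DifferentiableOn ℂ q (ball 0 1)) {t : ℝ} (ht : 0 ≤ t)
    (ht1 : t < 1) : 2 * π * S (bb q) 2 (t ^ 2) =
      ∫ θ in (0 : ℝ)..(2 * π), ‖circleMap 0 t θ * deriv q (circleMap 0 t θ)‖ ^ 2 := by
  have hc : ContinuousOn (fun z => z * deriv q z) (ball 0 1) :=
    continuousOn_id.mul (hq.deriv isOpen_ball).continuousOn
  rw [← (pars2 (A := fun z => z * deriv q z) (fun z hz => a15_taylor' hq hz) hc ht ht1).tsum_eq]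
  unfold S bb
  rw [← tsum_mul_left]
  apply tsum_congr
  intro n
  rw [norm_mul, Complex.norm_natCast, mul_pow]

theorem bb_summ {q : ℂ → ℂ} (hq : DifferentiableOn ℂ q (ball 0 1)) {x : ℝ} (hx : 0 ≤ x)
    (hx1 : x < 1) : Summable (fun n : ℕ => bb q n * x ^ n) := by
  have ht : 0 ≤ Real.sqrt x := Real.sqrt_nonneg x
  have ht1 : Real.sqrt x < 1 := by
    rw [Real.sqrt_lt' one_pos]
    simpa using hx1
  have h := (pars2 (fun z hz => a15_taylor hq hz) hq.continuousOn ht ht1).summable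
  rw [Real.sq_sqrt hx] at h
  have h2 := h.mul_left (2 * π)⁻¹
  refine h2.congr ?_
  intro n
  unfold bb
  rw [← mul_assoc, inv_mul_cancel₀ (by positivity), one_mul]

/-- the differential inequality for the means of a family -/
theorem UFam.ineq {F : ℂ → ℂ → ℂ} (hF : UFam F) (h0 : ∀ z ∈ ball (0 : ℂ) 1, F 0 z = z) {l : ℂ}
    (hl : ‖l‖ ≤ 1 / 6) {x : ℝ} (hx : 99999 / 100000 ≤ x) (hx1 : x < 1) :
    S (bb (Q F l)) 2 x ≤ (29755 / 100000) / (1 - x) ^ 2 * S (bb (Q F l)) 0 x := by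
  have hx0 : 0 < x := lt_of_lt_of_le (by norm_num) hx
  set t : ℝ := Real.sqrt x with ht
  have ht2 : t ^ 2 = x := Real.sq_sqrt hx0.le
  have ht0 : 0 < t := Real.sqrt_pos.2 hx0
  have ht1 : t < 1 := by
    rw [ht, Real.sqrt_lt' one_pos]
    simpa using hx1
  have hlb : l ∈ ball (0 : ℂ) 1 := by rw [mem_ball_zero_iff]; linarith
  have hq : DifferentiableOn ℂ (Q F l) (ball 0 1) := hF.famQ.1 l hlb
  have hmem : ∀ θ : ℝ, circleMap 0 t θ ∈ ball (0 : ℂ) 1 := by
    intro θ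
    rw [mem_ball_zero_iff, norm_circleMap_zero, abs_of_pos ht0]
    exact ht1
  have hc : ContinuousOn (fun z => z * deriv (Q F l) z) (ball 0 1) :=
    continuousOn_id.mul (hq.deriv isOpen_ball).continuousOn
  have e0 := S0_eq hq ht0.le ht1
  have e2 := S2_eq hq ht0.le ht1
  rw [ht2] at e0 e2
  have hpt : ∀ θ : ℝ, ‖circleMap 0 t θ * deriv (Q F l) (circleMap 0 t θ)‖ ^ 2 ≤
      (29755 / 100000) / (1 - x) ^ 2 * ‖Q F l (circleMap 0 t θ)‖ ^ 2 := by
    intro θ
    set z : ℂ := circleMap 0 t θ with hz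
    have hzb : z ∈ ball (0 : ℂ) 1 := hmem θ
    have hzn : ‖z‖ = t := by rw [hz, norm_circleMap_zero, abs_of_pos ht0]
    have hz0 : z ≠ 0 := by
      rw [← norm_pos_iff, hzn]; exact ht0
    have hp := hF.pre h0 (l := l) (by linarith) (mem_ball_zero_iff.1 hzb) hz0
    rw [hzn, ht2] at hp
    have he : eta (F l) z 0 =
        -(z * ((1 - x : ℝ) : ℂ)) * (deriv (deriv (F l)) z / deriv (F l) z) := by
      simp [Pool.Agent.H58.BJ.eta, jP, iteratedDeriv_zero, hzn, ht2]
    have hne := hF.ne hlb hzb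
    have hd : HasDerivAt (deriv (F l)) (deriv (deriv (F l)) z) z :=
      (((hF.1 l hlb).1.deriv isOpen_ball).differentiableAt (isOpen_ball.mem_nhds hzb)).hasDerivAt
    have hQd : deriv (Q F l) z = -(deriv (deriv (F l)) z / deriv (F l) z) * Q F l z := by
      have h2 := (hasDerivAt_const z (deriv (F l) 0)).div hd hne
      have h3 : deriv (Q F l) z = _ := h2.deriv
      rw [h3]
      unfold QD.Q
      field_simp
      ring
    have h1x : 0 < 1 - x := by linarith
    have e3 : z * deriv (Q F l) z = eta (F l) z 0 / ((1 - x : ℝ) : ℂ) * Q F l z := by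
      have : ((1 - x : ℝ) : ℂ) ≠ 0 := by
        rw [Complex.ofReal_ne_zero]; exact h1x.ne'
      rw [hQd, he]
      field_simp
    have e4 : ‖eta (F l) z 0‖ ^ 2 ≤ 29755 / 100000 := by
      have h5 : ‖l‖ * (16 - 4 * x ^ 2) / (4 - 2 * ‖l‖ * x) ≤ 54546 / 100000 := by
        have h6 : 0 ≤ ‖l‖ := norm_nonneg l
        have h7 : 0 < 4 - 2 * ‖l‖ * x := by nlinarith
        rw [div_le_iff₀ h7]
        have h8 : (99999 / 100000 : ℝ) ^ 2 ≤ x ^ 2 := pow_le_pow_left₀ (by norm_num) hx 2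
        have h9 : ‖l‖ * x ≤ 1 / 6 := by nlinarith
        have h10 : ‖l‖ * (16 - 4 * x ^ 2) ≤ 1 / 6 * (16 - 4 * (99999 / 100000 : ℝ) ^ 2) := by
          apply mul_le_mul hl (by linarith) (by nlinarith) (by norm_num)
        nlinarith
      have h6 : ‖eta (F l) z 0‖ ≤ 54546 / 100000 := hp.trans h5
      calc ‖eta (F l) z 0‖ ^ 2 ≤ (54546 / 100000) ^ 2 := pow_le_pow_left₀ (norm_nonneg _) h6 2
        _ ≤ _ := by norm_num
    rw [e3, norm_mul, norm_div, Complex.norm_real, Real.norm_of_nonneg h1x.le, mul_pow, div_pow]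
    apply mul_le_mul_of_nonneg_right _ (by positivity)
    exact div_le_div_of_nonneg_right e4 (by positivity)
  have hint := intervalIntegral.integral_mono_on (a := 0) (b := 2 * π) (μ := volume)
    (f := fun θ => ‖circleMap 0 t θ * deriv (Q F l) (circleMap 0 t θ)‖ ^ 2)
    (g := fun θ => (29755 / 100000) / (1 - x) ^ 2 * ‖Q F l (circleMap 0 t θ)‖ ^ 2)
    (by positivity) ?_ ?_ (fun θ _ => hpt θ)
  · rw [intervalIntegral.integral_const_mul, ← e0, ← e2] at hint
    have hpi := Real.pi_pos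
    have h5 : 2 * π * S (bb (Q F l)) 2 x ≤
        2 * π * ((29755 / 100000) / (1 - x) ^ 2 * S (bb (Q F l)) 0 x) := by
      calc _ ≤ _ := hint
        _ = _ := by ring
    exact le_of_mul_le_mul_left h5 (by positivity)
  · apply Continuous.intervalIntegrable
    exact ((hc.comp_continuous (continuous_circleMap 0 t) hmem).norm).pow 2
  · apply Continuous.intervalIntegrable
    exact ((((hq.continuousOn.comp_continuous (continuous_circleMap 0 t) hmem).norm).pow 2).const_mul _)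

/-- **The bound for small parameters.** -/
theorem small : ∃ C : ℝ, 0 ≤ C ∧ ∀ F : ℂ → ℂ → ℂ, UFam F → (∀ z ∈ ball (0 : ℂ) 1, F 0 z = z) →
    ∀ l : ℂ, ‖l‖ ≤ 1 / 6 → ∀ x : ℝ, 0 ≤ x → x < 1 →
      S (bb (Q F l)) 0 x ≤ C * (1 - x) ^ (-(6 / 25 : ℝ)) := by
  have h1 : Real.sqrt (99999 / 100000) < 1 := by
    rw [Real.sqrt_lt' one_pos]
    norm_num
  obtain ⟨D, hD0, hD⟩ := distort h1
  set x1 : ℝ := 99999 / 100000 with hx1
  set c : ℝ := 29755 / 100000 with hc
  set A : ℝ := D ^ 2 with hA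
  set B : ℝ := c / (1 - x1) ^ 2 * A with hB
  set E : ℝ := (A + B / x1) / (1 - c / (x1 ^ 2 * (6 / 25 * (6 / 25 + 1)))) with hE
  have hq1 : 0 < 1 - c / (x1 ^ 2 * (6 / 25 * (6 / 25 + 1))) := by
    rw [hc, hx1]; norm_num
  have hA0 : 0 ≤ A := by positivity
  have hB0 : 0 ≤ B := by rw [hB, hc]; positivity
  have hx10 : 0 < x1 := by rw [hx1]; norm_num
  have hE0 : 0 ≤ E := by
    rw [hE]
    apply div_nonneg _ hq1.le
    positivity
  refine ⟨A + E, by positivity, ?_⟩
  intro F hF h0 l hl x hx hx1'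
  have hlb : l ∈ ball (0 : ℂ) 1 := by rw [mem_ball_zero_iff]; linarith
  have hq : DifferentiableOn ℂ (Q F l) (ball 0 1) := hF.famQ.1 l hlb
  have hb := bb_nonneg (Q F l)
  have hs : ∀ x : ℝ, 0 ≤ x → x < 1 → Summable (fun n : ℕ => bb (Q F l) n * x ^ n) :=
    fun x hx hx1 => bb_summ hq hx hx1
  -- the value at `x1`
  have hS0 : S (bb (Q F l)) 0 x1 ≤ A := by
    set t : ℝ := Real.sqrt (99999 / 100000) with ht
    have ht2 : t ^ 2 = x1 := Real.sq_sqrt (by norm_num)
    have ht0 : 0 ≤ t := Real.sqrt_nonneg _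
    have e0 := S0_eq hq ht0 h1
    rw [ht2] at e0
    have hmem : ∀ θ : ℝ, circleMap 0 t θ ∈ ball (0 : ℂ) 1 := by
      intro θ
      rw [mem_ball_zero_iff, norm_circleMap_zero, abs_of_nonneg ht0]
      exact h1
    have hpt : ∀ θ : ℝ, ‖Q F l (circleMap 0 t θ)‖ ^ 2 ≤ A := by
      intro θ
      have h2 := hD (F l) (hF.1 l hlb) (circleMap 0 t θ) (by
        rw [norm_circleMap_zero, abs_of_nonneg ht0])
      have h3 : ‖Q F l (circleMap 0 t θ)‖ ≤ D := by
        unfold QD.Q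
        rw [norm_div, div_le_iff₀ (norm_pos_iff.2 (hF.ne hlb (hmem θ)))]
        exact h2
      exact pow_le_pow_left₀ (norm_nonneg _) h3 2
    have hint := intervalIntegral.integral_mono_on (a := 0) (b := 2 * π) (μ := volume)
      (f := fun θ => ‖Q F l (circleMap 0 t θ)‖ ^ 2) (g := fun _ => A)
      (by positivity) (by
        apply Continuous.intervalIntegrable
        exact ((hq.continuousOn.comp_continuous (continuous_circleMap 0 t) hmem).norm).pow 2)
      intervalIntegrable_const (fun θ _ => hpt θ)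
    rw [← e0, intervalIntegral.integral_const, smul_eq_mul, sub_zero] at hint
    exact le_of_mul_le_mul_left hint (by positivity)
  have hS2 : S (bb (Q F l)) 2 x1 ≤ B := by
    have h2 := hF.ineq h0 hl (x := x1) le_rfl (by rw [hx1]; norm_num)
    refine h2.trans ?_
    exact mul_le_mul_of_nonneg_left hS0 (by rw [hx1]; norm_num)
  have hS1 : S (bb (Q F l)) 1 x1 ≤ B := by
    refine le_trans ?_ hS2
    have hx11 : x1 < 1 := by rw [hx1]; norm_num
    apply (S_summ hb hs 1 hx10.le hx11).tsum_le_tsum _ (S_summ hb hs 2 hx10.le hx11)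
    intro n
    apply mul_le_mul_of_nonneg_right _ (by positivity)
    apply mul_le_mul_of_nonneg_right _ (hb n)
    rcases Nat.eq_zero_or_pos n with hn | hn
    · subst hn; simp
    · exact pow_le_pow_right₀ (by exact_mod_cast hn) (by norm_num)
  have h1x : 0 < 1 - x := by linarith
  have h1p : 1 ≤ (1 - x) ^ (-(6 / 25 : ℝ)) := by
    rw [Real.rpow_neg h1x.le]
    apply (one_le_inv₀ (Real.rpow_pos_of_pos h1x _)).2
    exact Real.rpow_le_one h1x.le (by linarith) (by norm_num)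
  rcases le_total x x1 with hle | hle
  · have h2 : S (bb (Q F l)) 0 x ≤ S (bb (Q F l)) 0 x1 := by
      have hx11 : x1 < 1 := by rw [hx1]; norm_num
      apply (S_summ hb hs 0 hx hx1').tsum_le_tsum _ (S_summ hb hs 0 hx10.le hx11)
      intro n
      apply mul_le_mul_of_nonneg_left (pow_le_pow_left₀ hx hle n)
      exact mul_nonneg (by positivity) (hb n)
    calc S (bb (Q F l)) 0 x ≤ A := h2.trans hS0
      _ ≤ (A + E) * 1 := by linarith
      _ ≤ _ := mul_le_mul_of_nonneg_left h1p (by positivity)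
  · have h3 := ode hb hs (x1 := x1) (c := c) (β := 6 / 25) hx10 (by rw [hx1]; norm_num)
      (by rw [hc]; norm_num) (by norm_num) (by rw [hc, hx1]; norm_num)
      (fun x hx hx1 => hF.ineq h0 hl hx hx1) hle hx1'
    refine h3.trans ?_
    apply mul_le_mul_of_nonneg_right _ (by positivity)
    have h4 : (S (bb (Q F l)) 0 x1 + S (bb (Q F l)) 1 x1 / x1) /
        (1 - c / (x1 ^ 2 * (6 / 25 * (6 / 25 + 1)))) ≤ E := by
      rw [hE]
      apply div_le_div_of_nonneg_right _ hq1.le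
      have := div_le_div_of_nonneg_right hS1 hx10.le
      linarith
    linarith

end Pool.Agent.H5.QD
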